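import Pool.Graph.R_seed8.H974R2.Lattice

/-!
Number of clusters of a finite graph, and monotone couplings: definitions and statements.
-/

set_option autoImplicit false

namespace Pool.Agent.H950.FK

open H974

/-- The number of clusters of the edges `A` which meet `V0`. -/
noncomputable def kcl (V0 : Finset Vtx) (A : Set Edg) : ℕ :=
  {K : Set Vtx | ∃ v ∈ V0, K = {u | Reach A v u}}.ncard

/-- **T1.** The number of clusters is a supermodular function of the set of edges.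
Proof: let `S A` be the space of the functions `f : V0 → ℝ` with `f (src e) = f (tgt e)` for all
`e ∈ A`. Such a function is a function on the clusters, so `finrank (S A) = kcl V0 A` (a linear
equivalence with the functions on the finite set of the clusters: `f` is constant on the clusters
because all edges of `A` have both ends in `V0`). `S (A ∪ B) = S A ⊓ S B`, and
`S A ⊔ S B ≤ S (A ∩ B)`; now
`finrank (S A) + finrank (S B) = finrank (S A ⊔ S B) + finrank (S A ⊓ S B)`. -/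
def S_super : Prop := ∀ (V0 : Finset Vtx) (A B : Finset Edg),
  (∀ e ∈ A ∪ B, src e ∈ V0 ∧ tgt e ∈ V0) →
  kcl V0 ↑A + kcl V0 ↑B ≤ kcl V0 ↑(A ∩ B) + kcl V0 ↑(A ∪ B)

/-- **T2.** Holley's condition gives a monotone coupling of two probabilities on the subsets of a
finite set. Proof: induction on `S`. Let `S = insert e S0`; for `A ⊆ S0` put `f0 A = f A`,
`f1 A = f (insert e A)`, `a0 = ∑ f0`, `a1 = ∑ f1` (sums over `S0.powerset`), and `g0, g1, b0, b1` in
the same way; `a0 + a1 = 1 = b0 + b1`. Holley's condition gives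
`f1 A * g0 B ≤ f0 (A ∩ B) * g1 (A ∪ B)` for `A, B ⊆ S0`, so by the four functions theorem
(Mathlib: `Finset.four_functions_theorem`) `a1 * b0 ≤ a0 * b1`, that is `a1 ≤ b1`. The pairs
`(f0/a0, g0/b0)`, `(f0/a0, g1/b1)`, `(f1/a1, g1/b1)` satisfy Holley's condition on `S0`
(`f (A) g (insert e B) ≤ f (A ∩ B) g (insert e (A ∪ B))` etc.); let `κ00, κ01, κ11` be their couplings
(`0` if a denominator vanishes), and
`κ A B = b0 κ00` if `e ∉ A, e ∉ B`; `(b1 - a1) κ01` if `e ∉ A, e ∈ B`; `a1 κ11` if `e ∈ A, e ∈ B`;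
`0` otherwise (evaluated at `A.erase e`, `B.erase e`). (If `b0 > 0` then `a0 > 0` since `b0 ≤ a0`; if
`b1 - a1 > 0` then `a0 > 0` and `b1 > 0`; if `a1 > 0` then `b1 > 0`; if `a1 = 0` then `f1 = 0` on
`S0.powerset`, etc.) -/
def S_coup : Prop := ∀ (S : Finset Edg) (f g : Finset Edg → ℝ),
  (∀ A, 0 ≤ f A) → (∀ A, 0 ≤ g A) → ∑ A ∈ S.powerset, f A = 1 → ∑ A ∈ S.powerset, g A = 1 →
  (∀ A ⊆ S, ∀ B ⊆ S, f A * g B ≤ f (A ∩ B) * g (A ∪ B)) →
  ∃ κ : Finset Edg → Finset Edg → ℝ, (∀ A B, 0 ≤ κ A B) ∧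
    (∀ A ⊆ S, ∑ B ∈ S.powerset, κ A B = f A) ∧ (∀ B ⊆ S, ∑ A ∈ S.powerset, κ A B = g B) ∧
    ∀ A ⊆ S, ∀ B ⊆ S, κ A B ≠ 0 → A ⊆ B

end Pool.Agent.H950.FK
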