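import Pool.Agent.H950.FK.Pf.Super
import Pool.Agent.H950.FK.Pf.Coup
import Pool.Agent.H950.FK.Pf.Ncl
import Pool.Agent.H950.FK.Pf.Cmp
import Pool.Agent.H950.FK.Pf.Shift
import Pool.Agent.H950.FK.Pf.Pot
import Pool.Agent.H950.FK.Pf.Path
import Pool.Agent.H950.FK.Pf.Ctc
import Pool.Agent.H950.FK.Pf.Sum
import Pool.Agent.H950.FK.Pf.Main
import Pool.Agent.H950.FK.Pf.Trace

/-!
The discrete theorems. The proofs were written by helper550 (`Super`, `Shift`), helper974 (`Coup`),
helper738 (`Ncl`), helper975 (`Cmp`), helper297 (`Pot`), helper139 (`Path`), helper264 (`Con`),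
helper353 (`Sum`), helper339 (`Main`), helper597 (`Trace`).
-/

set_option autoImplicit false

namespace Pool.Agent.H950.FK

theorem cmp : S_cmp := Pool.Agent.H975.FK.t_cmp Pool.Agent.H550.FK.t_super
  Pool.Agent.H950.FKp.t_coup Pool.Agent.H738.FKncl.t_ncl

theorem pth : S_path := Pool.Agent.H139.FK.t_path Pool.Agent.H297.FK.t_pot

theorem contact : S_con := Pool.Agent.H264.FK.t_con Pool.Agent.H297.FK.t_pot pth

theorem mainT : S_main := Pool.Agent.H339.FK.t_main cmp Pool.Agent.H550.FK.t_shift pth contact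
  Pool.Agent.H353.FK.t_sum

theorem traceT : S_trace := Pool.Agent.H597.FK.t_trace pth

end Pool.Agent.H950.FK
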