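import Pool.Agent.H950.EX.Seq
import Mathlib.MeasureTheory.Measure.LevyProkhorovMetric

/-!
# Dobrushin domains between two graphs, and their FK interfaces

The lattice is `ℤ²`: `Vtx = ℤ × ℤ`; the edge `(x, y, true)` joins `(x, y)` and `(x + 1, y)`, the edge
`(x, y, false)` joins `(x, y)` and `(x, y + 1)`; the face `(x, y)` is the unit square with the lower
left corner `(x, y)`. `Reach S u v`: the vertices `u`, `v` are joined by edges of `S`;
`DReach S f g`: the faces `f`, `g` are joined by a dual path which crosses edges of `S` only.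
A state of the interface (`St`) is a vertex together with one of its four corners; `nxt S` is one
step of the interface with the open edges `S` on its right and the closed edges on its left, `orb`
its iterates (`Pool.Graph.R_seed8.H984R3.Per.Defs`).
-/

set_option autoImplicit false

namespace Pool.Agent.H950.FK

open H974 H984P H984N MeasureTheory TopologicalSpace

/-- A lattice domain between two graphs: in the row `y` the vertices `(x, y)` with `x ≤ w y` are
wired, those with `z y ≤ x` are free. There are other vertices only in the rows strictly between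
`lo` and `hi`. The interface goes from `(w hi, hi)` to `(w lo, lo)`. -/
structure GD where
  lo : ℤ
  hi : ℤ
  w : ℤ → ℤ
  z : ℤ → ℤ
  lohi : lo < hi
  lt : ∀ y, w y < z y
  bot : ∀ y, y ≤ lo → w y = w lo ∧ z y = w lo + 1
  top : ∀ y, hi ≤ y → w y = w hi ∧ z y = w hi + 1

/-- `v` is a corner of the face `f`. -/
def cor (f v : Vtx) : Prop := (v.1 = f.1 ∨ v.1 = f.1 + 1) ∧ (v.2 = f.2 ∨ v.2 = f.2 + 1)

namespace GD

variable (D : GD)

/-- Wired vertices. -/
def W : Set Vtx := {v | v.1 ≤ D.w v.2}

/-- Free vertices. -/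
def Z : Set Vtx := {v | D.z v.2 ≤ v.1}

/-- The edges between wired vertices; they are open. -/
def We : Set Edg := {e | src e ∈ D.W ∧ tgt e ∈ D.W}

/-- The random edges: no end is free, and at least one end is not wired. The edges with a free end
are closed. -/
def rnd : Set Edg := {e | src e ∉ D.Z ∧ tgt e ∉ D.Z ∧ ¬ (src e ∈ D.W ∧ tgt e ∈ D.W)}

theorem row {v : Vtx} (h : v ∉ D.Z) (h' : v ∉ D.W) : D.lo < v.2 ∧ v.2 < D.hi := by
  unfold Z at h
  unfold W at h'
  simp only [Set.mem_ofPred_eq, not_le] at h h'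
  constructor
  · by_contra hc
    push Not at hc
    obtain ⟨h1, h2⟩ := D.bot v.2 hc
    omega
  · by_contra hc
    push Not at hc
    obtain ⟨h1, h2⟩ := D.top v.2 hc
    omega

/-- Vertices which are neither wired nor free. -/
def inn : Set Vtx := {v | v ∉ D.Z ∧ v ∉ D.W}

theorem inn_fin : D.inn.Finite := by
  have h : D.inn ⊆ ⋃ y ∈ Set.Icc D.lo D.hi, (fun x => ((x, y) : Vtx)) '' Set.Icc (D.w y) (D.z y) := by
    intro v hv
    have h1 := D.row hv.1 hv.2
    simp only [Set.mem_iUnion]
    refine ⟨v.2, ⟨h1.1.le, h1.2.le⟩, v.1, ?_, rfl⟩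
    have h2 := hv.1
    have h3 := hv.2
    unfold Z at h2
    unfold W at h3
    simp only [Set.mem_ofPred_eq, not_le] at h2 h3
    exact ⟨h3.le, h2.le⟩
  refine Set.Finite.subset (Set.Finite.biUnion (Set.finite_Icc _ _) fun y _ => ?_) h
  exact (Set.finite_Icc _ _).image _

theorem rnd_fin : D.rnd.Finite := by
  have h : D.rnd ⊆ (fun p : Vtx × Bool × Bool => if p.2.2 then ((p.1.1, p.1.2, p.2.1) : Edg) else
      (if p.2.1 then (p.1.1 - 1, p.1.2, true) else (p.1.1, p.1.2 - 1, false))) ''
      (D.inn ×ˢ Set.univ) := by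
    rintro ⟨x, y, o⟩ ⟨h1, h2, h3⟩
    by_cases h4 : src (x, y, o) ∈ D.W
    · have h5 : tgt (x, y, o) ∉ D.W := fun h => h3 ⟨h4, h⟩
      cases o
      · exact ⟨((x, y + 1), false, false), ⟨⟨h2, h5⟩, trivial⟩, by simp⟩
      · exact ⟨((x + 1, y), true, false), ⟨⟨h2, h5⟩, trivial⟩, by simp⟩
    · exact ⟨((x, y), o, true), ⟨⟨h1, h4⟩, trivial⟩, by simp⟩
  exact (Set.Finite.image _ (D.inn_fin.prod Set.finite_univ)).subset h

/-- The random edges. -/
noncomputable def E : Finset Edg := D.rnd_fin.toFinset

theorem mem_E {e : Edg} : e ∈ D.E ↔ e ∈ D.rnd := Set.Finite.mem_toFinset _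

/-- The open edges, with the boundary condition. -/
def cfg (F : Finset Edg) : Set Edg := ↑F ∪ D.We

/-- The vertices connected to the wired arc. -/
def clu (F : Finset Edg) : Set Vtx := {v | ∃ u ∈ D.W, Reach (D.cfg F) u v}

/-- The faces connected to the free arc. -/
def dclu (F : Finset Edg) : Set Vtx := {f | ∃ g, (∃ v ∈ D.Z, cor g v) ∧ DReach (D.cfg F)ᶜ g f}

/-- The number of clusters in the set of the vertices which are not free; the wired vertices count
as one cluster. -/
noncomputable def ncl (F : Finset Edg) : ℕ :=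
  {K : Set Vtx | ∃ v, v ∉ D.Z ∧ K = {u | Reach (D.cfg F) v u}}.ncard

/-- The FK weight. -/
noncomputable def wt (x q : ℝ) (F : Finset Edg) : ℝ := x ^ F.card * q ^ D.ncl F

/-- The FK probability of the configuration `F`. -/
noncomputable def mu (x q : ℝ) (F : Finset Edg) : ℝ := D.wt x q F / ∑ G ∈ D.E.powerset, D.wt x q G

open Classical in
/-- The FK probability of an event. -/
noncomputable def P (x q : ℝ) (A : Finset Edg → Prop) : ℝ :=
  ∑ F ∈ D.E.powerset, if A F then D.mu x q F else 0

/-- The first state of the interface. -/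
def start : St := ((D.w D.hi, D.hi), .ne)

/-- Its last state. -/
def stop : St := ((D.w D.lo, D.lo), .se)

/-- The interface. -/
noncomputable def walk (F : Finset Edg) (k : ℕ) : St := orb (D.cfg F) D.start k

/-- Its number of steps. -/
noncomputable def len (F : Finset Edg) : ℕ := sInf {k | D.walk F k = D.stop}

end GD

/-- The midpoint of the edge of the medial lattice between the vertex and the face of a state, at
mesh `δ`. -/
noncomputable def pt (δ : ℝ) (σ : St) : ℂ :=
  match σ.2 with
  | .ne => ⟨δ * (σ.1.1 + 1/4), δ * (σ.1.2 + 1/4)⟩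
  | .nw => ⟨δ * (σ.1.1 - 1/4), δ * (σ.1.2 + 1/4)⟩
  | .sw => ⟨δ * (σ.1.1 - 1/4), δ * (σ.1.2 - 1/4)⟩
  | .se => ⟨δ * (σ.1.1 + 1/4), δ * (σ.1.2 - 1/4)⟩

namespace GD

variable (D : GD)

/-- The interface as a curve at mesh `δ`. -/
noncomputable def curve (δ : ℝ) (F : Finset Edg) : C(unitInterval, ℂ) :=
  pl (D.len F) (fun k => pt δ (D.walk F k))

/-- The trace of the interface. -/
noncomputable def trace (δ : ℝ) (F : Finset Edg) : NonemptyCompacts ℂ :=
  ⟨⟨Set.range (D.curve δ F), isCompact_range (D.curve δ F).continuous⟩, Set.range_nonempty _⟩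

/-- The domain translated by `v`. -/
def shift (D : GD) (v : ℤ × ℤ) : GD where
  lo := D.lo + v.2
  hi := D.hi + v.2
  w := fun y => D.w (y - v.2) + v.1
  z := fun y => D.z (y - v.2) + v.1
  lohi := by linarith [D.lohi]
  lt := fun y => by linarith [D.lt (y - v.2)]
  bot := fun y hy => by
    obtain ⟨h1, h2⟩ := D.bot (y - v.2) (by linarith)
    rw [add_sub_cancel_right]
    omega
  top := fun y hy => by
    obtain ⟨h1, h2⟩ := D.top (y - v.2) (by linarith)
    rw [add_sub_cancel_right]
    omega

/-- Comparison of two domains. -/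
structure Le (D D' : GD) : Prop where
  w : ∀ y, D.w y ≤ D'.w y
  z : ∀ y, D.z y ≤ D'.z y

/-- The states between the wired cluster and the free dual cluster, in the rows of the domain. -/
def con (F : Finset Edg) : Set St :=
  {σ | σ.1 ∈ D.clu F ∧ face σ ∈ D.dclu F ∧ D.lo ≤ σ.1.2 ∧ σ.1.2 ≤ D.hi}

end GD

end Pool.Agent.H950.FK
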