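import Pool.Agent.H950.EX.Abs

/-!
Families of functions of the mesh which depend continuously on a domain.
-/

set_option autoImplicit false

namespace Pool.Agent.H950.FK

open Filter Topology Pool.Agent.H950.EX

variable {X Y : Type*} [MetricSpace Y]

/-- The values are relatively compact, and continuous in the domain and slowly varying in the mesh,
uniformly in the mesh. -/
structure Fam (Near : ℝ → X → X → Prop) (f : X → ℝ → Y) : Prop where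
  cpt : ∀ a, Cpt (f a)
  refl : ∀ a, ∀ ρ > 0, Near ρ a a
  apx : ∀ a, ∀ ε > 0, ∃ ρ > 0, ∀ (b : X) (δ δ' : ℝ), Near ρ a b → 0 < δ → 0 < δ' → δ' ≤ ρ →
    |δ - δ'| ≤ ρ * δ' → dist (f a δ) (f b δ') ≤ ε
  dense : ∃ T : ℕ → X, ∀ a, ∀ ε > 0, ∃ n, Near ε a (T n)

variable {Near : ℝ → X → X → Prop} {f : X → ℝ → Y}

theorem Fam.slow (h : Fam Near f) (a : X) : Slow (f a) := by
  intro ε hε
  obtain ⟨ρ, hρ, h1⟩ := h.apx a ε hε
  exact ⟨ρ, hρ, fun δ δ' hδ hδ' hd hm => h1 a δ δ' (h.refl a ρ hρ) hδ hδ' hd hm⟩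

theorem clu_seq {x : ℕ → Y} {φ : ℕ → ℕ} (hφ : StrictMono φ) {y : Y}
    (h : Tendsto (fun i => x (φ i)) atTop (𝓝 y)) : MapClusterPt y atTop x :=
  MapClusterPt.of_comp hφ.tendsto_atTop h.mapClusterPt

/-- **Simultaneous subsequential limits.** -/
theorem Fam.fam (h : Fam Near f) {δ : ℕ → ℝ} (h0 : ∀ i, 0 < δ i) (h1 : Tendsto δ atTop (𝓝 0)) :
    ∃ φ : ℕ → ℕ, StrictMono φ ∧ ∀ a : X, ∃ y : Y,
      Tendsto (fun i => f a (δ (φ i))) atTop (𝓝 y) := by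
  obtain ⟨T, hT⟩ := h.dense
  obtain ⟨φ, hφ, hn⟩ := diag (x := fun n k => f (T n) (δ k)) (fun n φ hφ =>
    h.cpt (T n) (δ ∘ φ) (fun i => h0 _) (h1.comp hφ.tendsto_atTop))
  refine ⟨φ, hφ, fun R => ?_⟩
  obtain ⟨ψ, hψ, y, hy⟩ := h.cpt R (δ ∘ φ) (fun i => h0 _) (h1.comp hφ.tendsto_atTop)
  refine ⟨y, approx_lim (clu_seq (x := fun i => f R (δ (φ i))) hψ hy) ?_⟩
  intro ε hε
  obtain ⟨ρ, hρ, h'⟩ := h.apx R ε hε
  obtain ⟨n, hn'⟩ := hT R ρ hρ
  obtain ⟨z, hz⟩ := hn n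
  refine ⟨_, z, hz, ?_⟩
  filter_upwards [(h1.comp hφ.tendsto_atTop).eventually_le_const hρ] with i hi
  exact h' (T n) _ _ hn' (h0 _) (h0 _) hi (by
    rw [sub_self, abs_zero]
    exact mul_nonneg hρ.le (h0 _).le)

/-- **Convergence from a sequence of meshes and nearby domains.** -/
theorem Fam.full (hF : Fam Near f) {δ : ℕ → ℝ} (h0 : ∀ i, 0 < δ i) (h1 : Tendsto δ atTop (𝓝 0))
    (h2 : Tendsto (fun i => δ (i + 1) / δ i) atTop (𝓝 1)) (R : X)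
    (h : ∀ ε > 0, ∃ R' : X, Near ε R R' ∧ ∃ y : Y,
      Tendsto (fun i => f R' (δ i)) atTop (𝓝 y)) :
    ∃ y : Y, Tendsto (f R) (𝓝[>] 0) (𝓝 y) := by
  obtain ⟨y, hy⟩ := clu_nonempty (hF.cpt R)
  refine ⟨y, approx_lim hy ?_⟩
  intro ε hε
  obtain ⟨ρ, hρ, ha⟩ := hF.apx R ε hε
  obtain ⟨R', hR', z, hz⟩ := h ρ hρ
  refine ⟨f R', z, seq_lim (hF.slow R') h0 h1 h2 hz, ?_⟩
  have h3 : ∀ᶠ x : ℝ in 𝓝[>] 0, 0 < x ∧ x < ρ := Ioo_mem_nhdsGT hρ
  filter_upwards [h3] with x hx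
  exact ha R' x x hR' hx.1 hx.1 hx.2.le (by
    rw [sub_self, abs_zero]
    exact mul_nonneg hρ.le hx.1.le)

/-- Hölder bounds pass to the limits. -/
theorem holder_lim' {ι : Type*} {l : Filter ι} [l.NeBot] {C s e : ℝ} (he : 0 < e) {δ : ι → ℝ}
    (h0 : ∀ᶠ i in l, 0 < δ i) (h1 : Tendsto δ l (𝓝 0)) {F G : ℝ → Y} {y y' : Y}
    (hy : Tendsto (fun i => F (δ i)) l (𝓝 y)) (hy' : Tendsto (fun i => G (δ i)) l (𝓝 y'))
    {k : ℝ} (h : ∀ δ : ℝ, 0 < δ → dist (F δ) (G δ) ≤ C * (s + k * δ) ^ e) :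
    dist y y' ≤ C * s ^ e := by
  have h2 : Tendsto (fun i => dist (F (δ i)) (G (δ i))) l (𝓝 (dist y y')) := hy.dist hy'
  have h3 : Tendsto (fun i => C * (s + k * δ i) ^ e) l (𝓝 (C * (s + k * 0) ^ e)) := by
    apply Tendsto.const_mul
    apply Tendsto.rpow_const _ (Or.inr he.le)
    exact tendsto_const_nhds.add (h1.const_mul k)
  rw [mul_zero, add_zero] at h3
  refine le_of_tendsto_of_tendsto h2 h3 ?_
  filter_upwards [h0] with i hi
  exact h (δ i) hi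

/-- Connected sets with two points are uncountable. -/
theorem uncount {Y : Type*} [MetricSpace Y] {L : Set Y} (hL : IsConnected L) (hc : L.Countable) :
    L.Subsingleton := by
  intro a ha b hb
  by_contra hab
  have hd : 0 < dist b a := dist_pos.2 (fun h => hab h.symm)
  have h1 : ((fun z => dist z a) '' L).Countable := hc.image _
  have h2 : IsPreconnected ((fun z => dist z a) '' L) :=
    hL.isPreconnected.image _ (by fun_prop)
  have h3 : Set.Icc 0 (dist b a) ⊆ (fun z => dist z a) '' L :=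
    h2.Icc_subset ⟨a, ha, dist_self a⟩ ⟨b, hb, rfl⟩
  have h4 : (Set.Icc 0 (dist b a)).Countable := h1.mono h3
  rw [← Cardinal.le_aleph0_iff_set_countable, Cardinal.mk_Icc_real hd] at h4
  exact absurd h4 (not_le.2 Cardinal.aleph0_lt_continuum)

/-- **Convergence or uncountably many limit points.** -/
theorem dich {Y : Type*} [MetricSpace Y] {f : ℝ → Y} (hC : Cpt f) (hS : Slow f)
    (hc : {y | MapClusterPt y (𝓝[>] (0:ℝ)) f}.Countable) : ∃ y, Tendsto f (𝓝[>] 0) (𝓝 y) := by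
  have h1 := uncount (clu_conn hC hS) hc
  obtain ⟨y, hy⟩ := clu_nonempty hC
  refine ⟨y, ?_⟩
  rw [tendsto_nhds]
  intro s hs hys
  obtain ⟨η, hη, h2⟩ := clu_near hC hs (fun z hz => by rw [h1 hz hy]; exact hys)
  have h3 : ∀ᶠ x : ℝ in 𝓝[>] 0, 0 < x ∧ x < η := Ioo_mem_nhdsGT hη
  filter_upwards [h3] with x hx
  exact h2 x hx.1 hx.2

end Pool.Agent.H950.FK
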