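import Pool.Agent.H950.FK.Tr
import Pool.Agent.H950.FK.Gen

/-!
Plane domains between two graphs and their lattice approximations.
-/

set_option autoImplicit false

namespace Pool.Agent.H950.FK

open H974 H984P H984N MeasureTheory TopologicalSpace Filter Topology Finset
open Pool.Agent.H950.EX (Cpt Slow)

/-- The plane domain `{x + i y : L < y < H, w y < x < z y}` between the graphs of two continuous
functions which meet at the heights `L` and `H` (the marked points). -/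
structure Dom where
  L : ℝ
  H : ℝ
  w : ℝ → ℝ
  z : ℝ → ℝ
  LH : L < H
  cw : Continuous w
  cz : Continuous z
  lt : ∀ y, L < y → y < H → w y < z y
  bot : ∀ y, y ≤ L → w y = w L ∧ z y = w L
  top : ∀ y, H ≤ y → w y = w H ∧ z y = w H

/-- The lattice domain `G` at mesh `δ` approximates the plane domain `D` up to the error `s`. -/
structure Apx (D : Dom) (δ s : ℝ) (G : GD) : Prop where
  lo : |δ * G.lo - D.L| ≤ s
  hi : |δ * G.hi - D.H| ≤ s
  w : ∀ y : ℤ, |δ * G.w y - D.w (δ * y)| ≤ s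
  z : ∀ y : ℤ, |δ * G.z y - D.z (δ * y)| ≤ s

namespace Dom

variable (D : Dom)

theorem le (y : ℝ) : D.w y ≤ D.z y := by
  rcases le_or_gt y D.L with h | h
  · obtain ⟨h1, h2⟩ := D.bot y h
    rw [h1, h2]
  · rcases le_or_gt D.H y with h' | h'
    · obtain ⟨h1, h2⟩ := D.top y h'
      rw [h1, h2]
    · exact (D.lt y h h').le

/-- The lattice domain at mesh `δ > 0`: the vertex `(x, y)` is wired if `δ x ≤ w (δ y)`, and free if
`z (δ y) < δ x`. -/
noncomputable def lat' {δ : ℝ} (hδ : 0 < δ) : GD where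
  lo := ⌊D.L / δ⌋
  hi := ⌈D.H / δ⌉
  w := fun y => ⌊D.w (δ * y) / δ⌋
  z := fun y => ⌊D.z (δ * y) / δ⌋ + 1
  lohi := by
    have h1 : (⌊D.L / δ⌋ : ℝ) ≤ D.L / δ := Int.floor_le _
    have h2 : D.H / δ ≤ (⌈D.H / δ⌉ : ℝ) := Int.le_ceil _
    have h3 : D.L / δ < D.H / δ := div_lt_div_of_pos_right D.LH hδ
    have : (⌊D.L / δ⌋ : ℝ) < (⌈D.H / δ⌉ : ℝ) := by linarith
    exact_mod_cast this
  lt := fun y => by
    have h : ⌊D.w (δ * y) / δ⌋ ≤ ⌊D.z (δ * y) / δ⌋ :=
      Int.floor_le_floor (div_le_div_of_nonneg_right (D.le _) hδ.le)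
    omega
  bot := fun y hy => by
    have h1 : ∀ x : ℤ, x ≤ ⌊D.L / δ⌋ → δ * x ≤ D.L := by
      intro x hx
      rw [Int.le_floor, le_div_iff₀ hδ] at hx
      linarith
    obtain ⟨h2, h3⟩ := D.bot _ (h1 y hy)
    obtain ⟨h4, h5⟩ := D.bot _ (h1 _ le_rfl)
    rw [h2, h3, h4]
    exact ⟨rfl, rfl⟩
  top := fun y hy => by
    have h1 : ∀ x : ℤ, ⌈D.H / δ⌉ ≤ x → D.H ≤ δ * x := by
      intro x hx
      rw [Int.ceil_le, div_le_iff₀ hδ] at hx
      linarith
    obtain ⟨h2, h3⟩ := D.top _ (h1 y hy)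
    obtain ⟨h4, h5⟩ := D.top _ (h1 _ le_rfl)
    rw [h2, h3, h4]
    exact ⟨rfl, rfl⟩

/-- A dummy value. -/
def nolat : GD where
  lo := 0
  hi := 1
  w := fun _ => 0
  z := fun _ => 1
  lohi := by norm_num
  lt := fun _ => by norm_num
  bot := fun _ _ => ⟨rfl, rfl⟩
  top := fun _ _ => ⟨rfl, rfl⟩

open Classical in
/-- The lattice domain at mesh `δ`. -/
noncomputable def lat (δ : ℝ) : GD := if h : 0 < δ then D.lat' h else nolat

theorem lat_apx {δ : ℝ} (hδ : 0 < δ) : Apx D δ δ (D.lat δ) := by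
  have e : D.lat δ = D.lat' hδ := by unfold lat; rw [dif_pos hδ]
  rw [e]
  have key : ∀ x : ℝ, |δ * (⌊x / δ⌋ : ℝ) - x| ≤ δ := by
    intro x
    have h1 := Int.floor_le (x / δ)
    have h2 := Int.lt_floor_add_one (x / δ)
    have h3 : δ * (x / δ) = x := by field_simp
    rw [abs_le]
    constructor <;> nlinarith
  have key2 : ∀ x : ℝ, |δ * ((⌊x / δ⌋ : ℝ) + 1) - x| ≤ δ := by
    intro x
    have h1 := Int.floor_le (x / δ)
    have h2 := Int.lt_floor_add_one (x / δ)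
    have h3 : δ * (x / δ) = x := by field_simp
    rw [abs_le]
    constructor <;> nlinarith
  have key3 : ∀ x : ℝ, |δ * (⌈x / δ⌉ : ℝ) - x| ≤ δ := by
    intro x
    have h1 := Int.le_ceil (x / δ)
    have h2 := Int.ceil_lt_add_one (x / δ)
    have h3 : δ * (x / δ) = x := by field_simp
    rw [abs_le]
    constructor <;> nlinarith
  refine ⟨key _, key3 _, fun y => key _, fun y => ?_⟩
  have := key2 (D.z (δ * y))
  show |δ * ((⌊D.z (δ * y) / δ⌋ + 1 : ℤ) : ℝ) - D.z (δ * y)| ≤ δ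
  push_cast
  exact this

/-- All quantities are at most `K`. -/
structure Bd (K : ℝ) : Prop where
  L : -K ≤ D.L
  H : D.H ≤ K
  w : ∀ y, -K ≤ D.w y
  z : ∀ y, D.z y ≤ K

/-- The nearest point of `[L, H]`. -/
noncomputable def cl (y : ℝ) : ℝ := max D.L (min D.H y)

theorem cl_mem (y : ℝ) : D.cl y ∈ Set.Icc D.L D.H := by
  unfold cl
  exact ⟨le_max_left _ _, max_le D.LH.le (min_le_left _ _)⟩

theorem cl_eq (y : ℝ) : D.w (D.cl y) = D.w y ∧ D.z (D.cl y) = D.z y := by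
  unfold cl
  rcases le_total y D.L with h | h
  · rw [min_eq_right (h.trans D.LH.le), max_eq_left h]
    obtain ⟨h1, h2⟩ := D.bot y h
    obtain ⟨h3, h4⟩ := D.bot D.L le_rfl
    rw [h1, h2, h4]
    exact ⟨rfl, rfl⟩
  · rcases le_total D.H y with h' | h'
    · rw [min_eq_left h', max_eq_right D.LH.le]
      obtain ⟨h1, h2⟩ := D.top y h'
      obtain ⟨h3, h4⟩ := D.top D.H le_rfl
      rw [h1, h2, h4]
      exact ⟨rfl, rfl⟩
    · rw [min_eq_right h', max_eq_right h]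
      exact ⟨rfl, rfl⟩

theorem exists_bd : ∃ K : ℝ, 0 < K ∧ D.Bd K := by
  obtain ⟨m, hm⟩ := (isCompact_Icc (a := D.L) (b := D.H)).exists_bound_of_continuousOn
    D.cw.continuousOn
  obtain ⟨m', hm'⟩ := (isCompact_Icc (a := D.L) (b := D.H)).exists_bound_of_continuousOn
    D.cz.continuousOn
  have h1 := abs_nonneg D.L
  have h2 := abs_nonneg D.H
  have h3 := abs_nonneg m
  have h4 := abs_nonneg m'
  refine ⟨|D.L| + |D.H| + |m| + |m'| + 1, by positivity, ?_, ?_, fun y => ?_, fun y => ?_⟩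
  · linarith [neg_abs_le D.L]
  · linarith [le_abs_self D.H]
  · have h5 := hm _ (D.cl_mem y)
    rw [(D.cl_eq y).1, Real.norm_eq_abs] at h5
    linarith [(abs_le.1 h5).1, le_abs_self m]
  · have h5 := hm' _ (D.cl_mem y)
    rw [(D.cl_eq y).2, Real.norm_eq_abs] at h5
    linarith [(abs_le.1 h5).2, le_abs_self m']

/-- Dilation of the variable. -/
theorem dil_mod {ε : ℝ} (hε : 0 < ε) : ∃ ρ : ℝ, 0 < ρ ∧ ρ ≤ 1/2 ∧ ∀ c : ℝ, |c - 1| ≤ ρ → ∀ y : ℝ,
    |D.w (c * y) - D.w y| ≤ ε ∧ |D.z (c * y) - D.z y| ≤ ε := by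
  have hc := isCompact_Icc (a := D.L) (b := D.H)
  obtain ⟨η1, hη1, u1⟩ := Metric.uniformContinuousOn_iff.1
    (hc.uniformContinuousOn_of_continuous D.cw.continuousOn) ε hε
  obtain ⟨η2, hη2, u2⟩ := Metric.uniformContinuousOn_iff.1
    (hc.uniformContinuousOn_of_continuous D.cz.continuousOn) ε hε
  obtain ⟨k, hk⟩ : ∃ k, k = |D.L| + |D.H| + 1 := ⟨_, rfl⟩
  have hk0 : 0 < k := by rw [hk]; positivity
  obtain ⟨η, hη⟩ : ∃ η, η = min η1 η2 := ⟨_, rfl⟩
  have hη0 : 0 < η := by rw [hη]; exact lt_min hη1 hη2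
  refine ⟨min (1/2) (η / (4 * k)), lt_min (by norm_num) (by positivity), min_le_left _ _, ?_⟩
  intro c hc1 y
  have c1 : |c - 1| ≤ 1/2 := hc1.trans (min_le_left _ _)
  have c2 : |c - 1| ≤ η / (4 * k) := hc1.trans (min_le_right _ _)
  have c3 := abs_le.1 c1
  have hL := neg_abs_le D.L
  have hH := le_abs_self D.H
  have hL' := le_abs_self D.L
  have hH' := neg_abs_le D.H
  have hL0 := abs_nonneg D.L
  have hH0 := abs_nonneg D.H
  have key : |D.cl (c * y) - D.cl y| < η := by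
    by_cases h1 : |y| ≤ 2 * k
    · have h2 : |c * y - y| ≤ η / 2 := by
        have e : c * y - y = (c - 1) * y := by ring
        rw [e, abs_mul]
        calc |c - 1| * |y| ≤ η / (4 * k) * (2 * k) :=
              mul_le_mul c2 h1 (abs_nonneg _) (by positivity)
          _ = η / 2 := by field_simp; norm_num
      have h3 : |D.cl (c * y) - D.cl y| ≤ |c * y - y| := by
        unfold cl
        rw [max_comm D.L, max_comm D.L]
        refine (abs_max_sub_max_le_abs _ _ _).trans ?_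
        refine (abs_min_sub_min_le_max _ _ _ _).trans (le_of_eq ?_)
        rw [sub_self, abs_zero]
        exact max_eq_right (abs_nonneg _)
      linarith
    · push Not at h1
      rcases le_total 0 y with h2 | h2
      · rw [abs_of_nonneg h2] at h1
        have e1 : D.cl y = D.H := by
          unfold cl
          rw [min_eq_left (by linarith), max_eq_right D.LH.le]
        have e2 : D.cl (c * y) = D.H := by
          unfold cl
          rw [min_eq_left (by nlinarith), max_eq_right D.LH.le]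
        rw [e1, e2, sub_self, abs_zero]
        exact hη0
      · rw [abs_of_nonpos h2] at h1
        have e1 : D.cl y = D.L := by
          unfold cl
          rw [min_eq_right (by linarith), max_eq_left (by linarith)]
        have e2 : D.cl (c * y) = D.L := by
          unfold cl
          rw [min_eq_right (by nlinarith), max_eq_left (by nlinarith)]
        rw [e1, e2, sub_self, abs_zero]
        exact hη0
  constructor
  · have h1 := u1 _ (D.cl_mem (c * y)) _ (D.cl_mem y) (by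
      rw [Real.dist_eq]
      exact lt_of_lt_of_le key (by rw [hη]; exact min_le_left _ _))
    rw [Real.dist_eq, (D.cl_eq (c * y)).1, (D.cl_eq y).1] at h1
    exact h1.le
  · have h1 := u2 _ (D.cl_mem (c * y)) _ (D.cl_mem y) (by
      rw [Real.dist_eq]
      exact lt_of_lt_of_le key (by rw [hη]; exact min_le_right _ _))
    rw [Real.dist_eq, (D.cl_eq (c * y)).2, (D.cl_eq y).2] at h1
    exact h1.le

end Dom

/-- Two plane domains are within `t` of each other. -/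
structure Near (t : ℝ) (D D' : Dom) : Prop where
  L : |D.L - D'.L| ≤ t
  H : |D.H - D'.H| ≤ t
  w : ∀ y, |D.w y - D'.w y| ≤ t
  z : ∀ y, |D.z y - D'.z y| ≤ t

theorem Near.refl (D : Dom) {t : ℝ} (ht : 0 ≤ t) : Near t D D := by
  refine ⟨?_, ?_, fun y => ?_, fun y => ?_⟩ <;> rw [sub_self, abs_zero] <;> exact ht

theorem Apx.siz {D : Dom} {δ s K : ℝ} {G : GD} (h : Apx D δ s G) (hK : D.Bd K) :
    Siz G δ (K + s) := by
  refine ⟨?_, ?_, fun y => ?_, fun y => ?_⟩
  · have := (abs_le.1 h.lo).1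
    have := hK.L
    linarith
  · have := (abs_le.1 h.hi).2
    have := hK.H
    linarith
  · have := (abs_le.1 (h.w y)).1
    have := hK.w (δ * y)
    linarith
  · have := (abs_le.1 (h.z y)).2
    have := hK.z (δ * y)
    linarith

theorem Near.bd {D D' : Dom} {t K : ℝ} (h : Near t D D') (hK : D.Bd K) : D'.Bd (K + t) := by
  refine ⟨?_, ?_, fun y => ?_, fun y => ?_⟩
  · have := (abs_le.1 h.L).2
    have := hK.L
    linarith
  · have := (abs_le.1 h.H).1
    have := hK.H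
    linarith
  · have := (abs_le.1 (h.w y)).2
    have := hK.w y
    linarith
  · have := (abs_le.1 (h.z y)).1
    have := hK.z y
    linarith

theorem apx_cls {D D' : Dom} {δ s t : ℝ} {G G' : GD} (hδ : 0 < δ) (h : Apx D δ s G)
    (h' : Apx D' δ s G') (hn : Near t D D') : Cls G G' δ (2 * s + t) := by
  have key : ∀ (m m' : ℤ) (x x' : ℝ), |δ * m - x| ≤ s → |δ * m' - x'| ≤ s → |x - x'| ≤ t →
      δ * |(m : ℝ) - m'| ≤ 2 * s + t := by
    intro m m' x x' h1 h2 h3
    have e : δ * |(m : ℝ) - m'| = |δ * m - δ * m'| := by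
      rw [← mul_sub, abs_mul, abs_of_pos hδ]
    rw [e]
    rw [abs_le] at h1 h2 h3 ⊢
    constructor <;> linarith [h1.1, h1.2, h2.1, h2.2, h3.1, h3.2]
  exact ⟨key _ _ _ _ h.lo h'.lo hn.L, key _ _ _ _ h.hi h'.hi hn.H,
    fun y => key _ _ _ _ (h.w y) (h'.w y) (hn.w _), fun y => key _ _ _ _ (h.z y) (h'.z y) (hn.z _)⟩

/-- **Hölder continuity in the domain, uniformly in the mesh.** -/
theorem dom_lp (h10 : S_main) (h11 : S_trace) {D D' : Dom} {π : Par} {δ s t K : ℝ} {G G' : GD}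
    (hδ : 0 < δ) (hK : D.Bd K) (h : Apx D δ s G) (h' : Apx D' δ s G') (hn : Near t D D') :
    dist (fl G π δ) (fl G' π δ) ≤ 16 * (K + 3) * (s + t + δ) ^ (1/3 : ℝ) := by
  have hs : 0 ≤ s := (abs_nonneg _).trans h.lo
  have ht : 0 ≤ t := (abs_nonneg _).trans hn.L
  have hK0 : 0 < K := by
    have := hK.L
    have := hK.H
    have := D.LH
    linarith
  have hp : 0 < s + t + δ := by positivity
  by_cases h1 : 1 < s + t
  · refine (lp_le_one _ _).trans ?_
    have : 1 ≤ (s + t + δ) ^ (1/3 : ℝ) := Real.one_le_rpow (by linarith) (by norm_num)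
    nlinarith
  push Not at h1
  have g1 : Siz G δ (K + s + t) := by
    have := h.siz hK
    exact ⟨by linarith [this.lo], by linarith [this.hi], fun y => by linarith [this.w y],
      fun y => by linarith [this.z y]⟩
  have g2 : Siz G' δ (K + s + t) := by
    have := h'.siz (hn.bd hK)
    exact ⟨by linarith [this.lo], by linarith [this.hi], fun y => by linarith [this.w y],
      fun y => by linarith [this.z y]⟩
  have g3 := close_lp (π := π) h10 h11 g1 g2 hδ (apx_cls hδ h h' hn)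
  refine g3.trans ?_
  have g4 : (2 * s + t + δ) ^ (1/3 : ℝ) ≤ 2 * (s + t + δ) ^ (1/3 : ℝ) := by
    calc (2 * s + t + δ) ^ (1/3 : ℝ) ≤ (2 * (s + t + δ)) ^ (1/3 : ℝ) :=
          Real.rpow_le_rpow (by positivity) (by linarith) (by norm_num)
      _ = 2 ^ (1/3 : ℝ) * (s + t + δ) ^ (1/3 : ℝ) := Real.mul_rpow (by norm_num) hp.le
      _ ≤ 2 * (s + t + δ) ^ (1/3 : ℝ) := by
          apply mul_le_mul_of_nonneg_right _ (by positivity)
          calc (2:ℝ) ^ (1/3 : ℝ) ≤ 2 ^ (1:ℝ) :=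
                Real.rpow_le_rpow_of_exponent_le (by norm_num) (by norm_num)
            _ = 2 := Real.rpow_one 2
  calc 8 * (K + s + t + 2) * (2 * s + t + δ) ^ (1/3 : ℝ)
      ≤ 8 * (K + 3) * (2 * (s + t + δ) ^ (1/3 : ℝ)) :=
        mul_le_mul (by linarith) g4 (by positivity) (by positivity)
    _ = 16 * (K + 3) * (s + t + δ) ^ (1/3 : ℝ) := by ring

/-- Approximations at neighbouring meshes. -/
theorem apx_mesh (D : Dom) {ε : ℝ} (hε : 0 < ε) : ∃ ρ : ℝ, 0 < ρ ∧ ρ ≤ 1/2 ∧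
    ∀ (δ δ' : ℝ) (G : GD), 0 < δ → 0 < δ' → |δ - δ'| ≤ ρ * δ' → Apx D δ ρ G → Apx D δ' ε G := by
  obtain ⟨K, hK, hB⟩ := D.exists_bd
  obtain ⟨ρ, hρ, hρ1, hd⟩ := D.dil_mod (show 0 < ε / 3 by positivity)
  obtain ⟨r, hr⟩ : ∃ r, r = min (ρ / 2) (min (ε / 6) (ε / (6 * K))) := ⟨_, rfl⟩
  have r1 : r ≤ ρ / 2 := by rw [hr]; exact min_le_left _ _
  have r2 : r ≤ ε / 6 := by rw [hr]; exact (min_le_right _ _).trans (min_le_left _ _)
  have r3 : r ≤ ε / (6 * K) := by rw [hr]; exact (min_le_right _ _).trans (min_le_right _ _)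
  have r0 : 0 < r := by
    rw [hr]
    exact lt_min (by positivity) (lt_min (by positivity) (by positivity))
  refine ⟨r, r0, by linarith, ?_⟩
  intro δ δ' G hδ hδ' hm hA
  have m1 : |δ - δ'| ≤ δ' / 4 := by
    refine hm.trans ?_
    nlinarith
  have m2 := abs_le.1 m1
  have q1 : |δ' / δ - 1| ≤ 2 * r := by
    have e : δ' / δ - 1 = (δ' - δ) / δ := by field_simp
    rw [e, abs_div, abs_of_pos hδ, abs_sub_comm, div_le_iff₀ hδ]
    nlinarith
  have q2 : δ' / δ ≤ 2 := by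
    rw [div_le_iff₀ hδ]
    linarith
  have q3 : 0 < δ' / δ := by positivity
  have hcK : 2 * r * K ≤ ε / 3 := by
    have : r * K ≤ ε / 6 := by
      calc r * K ≤ ε / (6 * K) * K := mul_le_mul_of_nonneg_right r3 hK.le
        _ = ε / 6 := by field_simp
    linarith
  have key : ∀ (m : ℤ) (x x' : ℝ), |δ * m - x| ≤ r → |x| ≤ K → |x - x'| ≤ ε / 3 →
      |δ' * m - x'| ≤ ε := by
    intro m x x' h1 h2 h3
    have e : δ' * m - x' = δ' / δ * (δ * m - x) + (δ' / δ - 1) * x + (x - x') := by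
      field_simp
      ring
    rw [e]
    have a1 : |δ' / δ * (δ * m - x)| ≤ 2 * r := by
      rw [abs_mul, abs_of_pos q3]
      exact mul_le_mul q2 h1 (abs_nonneg _) (by norm_num)
    have a2 : |(δ' / δ - 1) * x| ≤ 2 * r * K := by
      rw [abs_mul]
      exact mul_le_mul q1 h2 (abs_nonneg _) (by positivity)
    have a3 := abs_add_three (δ' / δ * (δ * m - x)) ((δ' / δ - 1) * x) (x - x')
    linarith
  have bL : |D.L| ≤ K := abs_le.2 ⟨hB.L, D.LH.le.trans hB.H⟩
  have bH : |D.H| ≤ K := abs_le.2 ⟨hB.L.trans D.LH.le, hB.H⟩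
  have bw : ∀ y, |D.w y| ≤ K := fun y => abs_le.2 ⟨hB.w y, (D.le y).trans (hB.z y)⟩
  have bz : ∀ y, |D.z y| ≤ K := fun y => abs_le.2 ⟨(hB.w y).trans (D.le y), hB.z y⟩
  have hdy : ∀ y : ℤ, |D.w (δ * y) - D.w (δ' * y)| ≤ ε / 3 ∧
      |D.z (δ * y) - D.z (δ' * y)| ≤ ε / 3 := by
    intro y
    have e : δ / δ' * (δ' * y) = δ * y := by field_simp
    have h1 := hd (δ / δ') (by
      have e2 : δ / δ' - 1 = (δ - δ') / δ' := by field_simp
      rw [e2, abs_div, abs_of_pos hδ', div_le_iff₀ hδ']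
      nlinarith) (δ' * y)
    rw [e] at h1
    exact h1
  refine ⟨key _ _ _ hA.lo bL ?_, key _ _ _ hA.hi bH ?_, fun y => key _ _ _ (hA.w y) (bw _)
    (hdy y).1, fun y => key _ _ _ (hA.z y) (bz _) (hdy y).2⟩
  · rw [sub_self, abs_zero]; positivity
  · rw [sub_self, abs_zero]; positivity

theorem small_pow {C ε : ℝ} (hC : 0 < C) (hε : 0 < ε) :
    ∃ ρ : ℝ, 0 < ρ ∧ ∀ x : ℝ, 0 ≤ x → x ≤ ρ → C * x ^ (1/3 : ℝ) ≤ ε := by
  refine ⟨(ε / C) ^ (3 : ℝ), by positivity, fun x hx h => ?_⟩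
  calc C * x ^ (1/3 : ℝ) ≤ C * ((ε / C) ^ (3 : ℝ)) ^ (1/3 : ℝ) :=
        mul_le_mul_of_nonneg_left (Real.rpow_le_rpow hx h (by norm_num)) hC.le
    _ = ε := by
        rw [← Real.rpow_mul (by positivity)]
        norm_num
        field_simp

/-- **Joint continuity in the domain, the mesh and the approximation.** -/
theorem joint (h7 : S_path) (h10 : S_main) (h11 : S_trace) (D : Dom) {ε : ℝ} (hε : 0 < ε) :
    ∃ ρ : ℝ, 0 < ρ ∧ ∀ (π : Par) (D' : Dom) (δ δ' : ℝ) (G G' : GD), Near ρ D D' → 0 < δ → 0 < δ' →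
      δ' ≤ ρ → |δ - δ'| ≤ ρ * δ' → Apx D δ ρ G → Apx D' δ' ρ G' →
      dist (fl G π δ) (fl G' π δ') ≤ ε := by
  obtain ⟨K, hK, hB⟩ := D.exists_bd
  obtain ⟨η, hη, hp⟩ := small_pow (C := 16 * (K + 3)) (ε := ε / 2) (by positivity) (by positivity)
  obtain ⟨e0, he0⟩ : ∃ e0, e0 = min (η / 3) (1/2) := ⟨_, rfl⟩
  have e00 : 0 < e0 := by rw [he0]; exact lt_min (by positivity) (by norm_num)
  have e01 : e0 ≤ η / 3 := by rw [he0]; exact min_le_left _ _
  have e02 : e0 ≤ 1/2 := by rw [he0]; exact min_le_right _ _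
  obtain ⟨r, hr, hr1, ha⟩ := apx_mesh D e00
  obtain ⟨ρ, hρ⟩ : ∃ ρ, ρ = min (min r e0) (ε / (4 * K + 8)) := ⟨_, rfl⟩
  have ρ1 : ρ ≤ r := by rw [hρ]; exact (min_le_left _ _).trans (min_le_left _ _)
  have ρ2 : ρ ≤ e0 := by rw [hρ]; exact (min_le_left _ _).trans (min_le_right _ _)
  have ρ3 : ρ ≤ ε / (4 * K + 8) := by rw [hρ]; exact min_le_right _ _
  have ρ0 : 0 < ρ := by rw [hρ]; exact lt_min (lt_min hr e00) (by positivity)
  refine ⟨ρ, ρ0, ?_⟩
  intro π D' δ δ' G G' hn hδ hδ' hd hm hA hA'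
  have hm' : |δ - δ'| ≤ r * δ' := hm.trans (mul_le_mul_of_nonneg_right ρ1 hδ'.le)
  have hA1 : Apx D δ r G := ⟨hA.lo.trans ρ1, hA.hi.trans ρ1, fun y => (hA.w y).trans ρ1,
    fun y => (hA.z y).trans ρ1⟩
  have hA2 := ha δ δ' G hδ hδ' hm' hA1
  have hA3 : Apx D' δ' e0 G' := ⟨hA'.lo.trans ρ2, hA'.hi.trans ρ2, fun y => (hA'.w y).trans ρ2,
    fun y => (hA'.z y).trans ρ2⟩
  have s1 := dom_lp (π := π) h10 h11 hδ' hB hA2 hA3 hn
  have s2 : 16 * (K + 3) * (e0 + ρ + δ') ^ (1/3 : ℝ) ≤ ε / 2 :=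
    hp _ (by positivity) (by linarith)
  have s3 := mesh_lp (π := π) (δ := δ) h7 hδ' (hA2.siz hB)
  have s4 : |δ - δ'| / δ' * (2 * (K + e0) + 2 * δ') ≤ ε / 2 := by
    have t1 : |δ - δ'| / δ' ≤ ρ := by
      rw [div_le_iff₀ hδ']
      exact hm
    have t2 : 2 * (K + e0) + 2 * δ' ≤ 2 * K + 4 := by linarith
    calc |δ - δ'| / δ' * (2 * (K + e0) + 2 * δ') ≤ ε / (4 * K + 8) * (2 * K + 4) :=
          mul_le_mul (t1.trans ρ3) t2 (by positivity) (by positivity)
      _ = ε / 2 := by field_simp; ring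
  have s5 := dist_triangle (fl G π δ) (fl G π δ') (fl G' π δ')
  linarith

end Pool.Agent.H950.FK
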