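import Pool.Agent.H950.FK.Dom
import Pool.Agent.H950.FK.All

/-!
Plane domains between two graphs: compactness, density, scaling.
-/

set_option autoImplicit false

namespace Pool.Agent.H950.FK

open H974 H984P H984N MeasureTheory TopologicalSpace Filter Topology Finset
open Pool.Agent.H950.EX (Cpt Slow clu_iff clu_compact clu_conn)

/-- The restriction of a continuous function to `[-N, N]`. -/
def rs (N : ℕ) (f : ℝ → ℝ) (hf : Continuous f) : C(Set.Icc (-(N:ℝ)) N, ℝ) :=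
  ⟨fun y => f y, hf.comp continuous_subtype_val⟩

/-- The data of a domain. -/
def dat (N : ℕ) (D : Dom) :
    ℝ × ℝ × C(Set.Icc (-(N:ℝ)) N, ℝ) × C(Set.Icc (-(N:ℝ)) N, ℝ) :=
  (D.L, D.H, rs N D.w D.cw, rs N D.z D.cz)

theorem near_of_dat {N : ℕ} {D D' : Dom} {ε : ℝ} (h1 : -(N:ℝ) ≤ D.L) (h2 : D.H ≤ N)
    (h1' : -(N:ℝ) ≤ D'.L) (h2' : D'.H ≤ N) (h : dist (dat N D) (dat N D') ≤ ε) :
    Near ε D D' := by
  unfold dat at h
  rw [Prod.dist_eq, Prod.dist_eq, Prod.dist_eq, max_le_iff, max_le_iff, max_le_iff] at h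
  obtain ⟨a1, a2, a3, a4⟩ := h
  have hε : 0 ≤ ε := dist_nonneg.trans a1
  rw [ContinuousMap.dist_le hε] at a3 a4
  have hN : -(N:ℝ) ≤ N := h1.trans (D.LH.le.trans h2)
  have key : ∀ (f g : ℝ → ℝ), (∀ y ∈ Set.Icc (-(N:ℝ)) N, |f y - g y| ≤ ε) →
      (∀ y, y ≤ -(N:ℝ) → f y = f (-(N:ℝ)) ∧ g y = g (-(N:ℝ))) →
      (∀ y, (N:ℝ) ≤ y → f y = f N ∧ g y = g N) → ∀ y, |f y - g y| ≤ ε := by
    intro f g k1 k2 k3 y
    rcases le_total y (-(N:ℝ)) with h | h
    · rw [(k2 y h).1, (k2 y h).2]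
      exact k1 _ ⟨le_rfl, hN⟩
    · rcases le_total (N:ℝ) y with h' | h'
      · rw [(k3 y h').1, (k3 y h').2]
        exact k1 _ ⟨hN, le_rfl⟩
      · exact k1 _ ⟨h, h'⟩
  refine ⟨a1, a2, key _ _ (fun y hy => a3 ⟨y, hy⟩) (fun y hy => ⟨?_, ?_⟩) (fun y hy => ⟨?_, ?_⟩),
    key _ _ (fun y hy => a4 ⟨y, hy⟩) (fun y hy => ⟨?_, ?_⟩) (fun y hy => ⟨?_, ?_⟩)⟩
  · rw [(D.bot y (hy.trans h1)).1, (D.bot _ h1).1]
  · rw [(D'.bot y (hy.trans h1')).1, (D'.bot _ h1').1]
  · rw [(D.top y (h2.trans hy)).1, (D.top _ h2).1]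
  · rw [(D'.top y (h2'.trans hy)).1, (D'.top _ h2').1]
  · rw [(D.bot y (hy.trans h1)).2, (D.bot _ h1).2]
  · rw [(D'.bot y (hy.trans h1')).2, (D'.bot _ h1').2]
  · rw [(D.top y (h2.trans hy)).2, (D.top _ h2).2]
  · rw [(D'.top y (h2'.trans hy)).2, (D'.top _ h2').2]

/-- **A dense sequence of domains.** -/
theorem dense_dom : ∃ T : ℕ → Dom, ∀ D, ∀ ε > 0, ∃ n, Near ε D (T n) := by
  obtain ⟨S, hS⟩ : ∃ S : ℕ → Set Dom, S = fun (N : ℕ) => {D : Dom | -(N:ℝ) ≤ D.L ∧ D.H ≤ N} :=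
    ⟨_, rfl⟩
  have h1 : ∀ N : ℕ, ∃ U : Set Dom, U.Countable ∧ ∀ D ∈ S N, ∀ ε > 0, ∃ D' ∈ U, Near ε D D' := by
    intro N
    obtain ⟨c, hc, hd⟩ := TopologicalSpace.exists_countable_dense (dat N '' S N)
    have hg : ∀ u : (dat N '' S N : Set _), ∃ D ∈ S N, dat N D = u := fun u => u.2
    choose g hg1 hg2 using hg
    refine ⟨g '' c, hc.image _, ?_⟩
    intro D hD ε hε
    obtain ⟨u, hu, hu'⟩ := Metric.dense_iff.1 hd ⟨dat N D, ⟨D, hD, rfl⟩⟩ ε hε
    refine ⟨g u, ⟨u, hu', rfl⟩, ?_⟩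
    have hD' := hg1 u
    rw [hS] at hD hD'
    refine near_of_dat hD.1 hD.2 hD'.1 hD'.2 ?_
    rw [hg2 u]
    rw [Metric.mem_ball, dist_comm] at hu
    exact le_of_lt hu
  choose U hU hU' using h1
  have h2 : ∀ D : Dom, ∃ N : ℕ, D ∈ S N := by
    intro D
    obtain ⟨N, hN⟩ := exists_nat_ge (max (-D.L) D.H)
    refine ⟨N, ?_⟩
    rw [hS]
    exact ⟨by linarith [(le_max_left _ _).trans hN], (le_max_right _ _).trans hN⟩
  have h3 : (⋃ N, U N).Countable := Set.countable_iUnion hU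
  have h4 : ∀ D, ∀ ε > 0, ∃ D' ∈ ⋃ N, U N, Near ε D D' := by
    intro D ε hε
    obtain ⟨N, hN⟩ := h2 D
    obtain ⟨D', a, b⟩ := hU' N D hN ε hε
    exact ⟨D', Set.mem_iUnion.2 ⟨N, a⟩, b⟩
  have D0 : Dom := ⟨-1, 1, fun _ => 0, fun y => max 0 (1 - y ^ 2), by norm_num, continuous_const,
    by fun_prop, fun y h h' => by
      rw [lt_max_iff]
      right
      nlinarith, fun y hy => by
      refine ⟨rfl, max_eq_left ?_⟩
      nlinarith, fun y hy => by
      refine ⟨rfl, max_eq_left ?_⟩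
      nlinarith⟩
  obtain ⟨D1, hD1, -⟩ := h4 D0 1 one_pos
  obtain ⟨T, hT⟩ := h3.exists_eq_range ⟨D1, hD1⟩
  refine ⟨T, fun D ε hε => ?_⟩
  obtain ⟨D', a, b⟩ := h4 D ε hε
  rw [hT] at a
  obtain ⟨n, rfl⟩ := a
  exact ⟨n, b⟩

/-- The law at mesh `δ` of the interface in `D`. -/
noncomputable def fD (π : Par) (D : Dom) (δ : ℝ) : Yn := fl (D.lat δ) π δ

theorem seq_bdd {δ : ℕ → ℝ} (h1 : Tendsto δ atTop (𝓝 0)) : ∃ M, 0 < M ∧ ∀ i, δ i ≤ M := by
  obtain ⟨M, hM⟩ := (h1.bddAbove_range)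
  exact ⟨max M 1, by positivity, fun i => (hM ⟨i, rfl⟩).trans (le_max_left _ _)⟩

theorem cptD (π : Par) (D : Dom) : Cpt (fD π D) := by
  intro δ h0 h1
  obtain ⟨K, hK, hB⟩ := D.exists_bd
  obtain ⟨M, hM, hM'⟩ := seq_bdd h1
  obtain ⟨φ, hφ, y, hy⟩ := precompact (D := fun i => D.lat (δ i)) (π := π)
    (K := fun i => (D.lat (δ i)).trace (δ i))
    (ProperSpace.isCompact_closedBall (0:ℂ) (2 * (K + M) + 2 * M)) (fun i F hF z hz => by
      have h2 := trace_ball pth (h0 i) ((D.lat_apx (h0 i)).siz hB) hF hz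
      rw [mem_closedBall_zero_iff]
      have := hM' i
      linarith)
  exact ⟨φ, hφ, y, hy⟩

theorem Apx.mono {D : Dom} {δ s s' : ℝ} {G : GD} (h : Apx D δ s G) (hs : s ≤ s') :
    Apx D δ s' G :=
  ⟨h.lo.trans hs, h.hi.trans hs, fun y => (h.w y).trans hs, fun y => (h.z y).trans hs⟩

theorem Near.mono {D D' : Dom} {s s' : ℝ} (h : Near s D D') (hs : s ≤ s') : Near s' D D' :=
  ⟨h.L.trans hs, h.H.trans hs, fun y => (h.w y).trans hs, fun y => (h.z y).trans hs⟩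

theorem famD (π : Par) : Fam Near (fD π) where
  cpt := cptD π
  refl := fun D ρ hρ => Near.refl D hρ.le
  apx := fun D ε hε => by
    obtain ⟨ρ, hρ, h⟩ := joint pth mainT traceT D hε
    refine ⟨min (ρ / 2) 1, lt_min (by positivity) one_pos, ?_⟩
    intro D' δ δ' hn hδ hδ' hd hm
    have r1 : min (ρ / 2) 1 ≤ ρ / 2 := min_le_left _ _
    have r2 : min (ρ / 2) 1 ≤ 1 := min_le_right _ _
    have hδρ : δ ≤ ρ := by
      have := (abs_le.1 hm).2
      nlinarith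
    exact h π D' δ δ' _ _ (hn.mono (by linarith)) hδ hδ' (by linarith)
      (hm.trans (mul_le_mul_of_nonneg_right (by linarith) hδ'.le)) ((D.lat_apx hδ).mono hδρ)
      ((D'.lat_apx hδ').mono (by linarith))
  dense := dense_dom

/-! ### Scaling -/

/-- The scaled domain. -/
noncomputable def Dom.scale (c : ℝ) (hc : 0 < c) (D : Dom) : Dom where
  L := c * D.L
  H := c * D.H
  w := fun y => c * D.w (y / c)
  z := fun y => c * D.z (y / c)
  LH := mul_lt_mul_of_pos_left D.LH hc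
  cw := by have := D.cw; fun_prop
  cz := by have := D.cz; fun_prop
  lt := fun y h h' => by
    apply mul_lt_mul_of_pos_left _ hc
    apply D.lt
    · rw [lt_div_iff₀ hc]; linarith
    · rw [div_lt_iff₀ hc]; linarith
  bot := fun y hy => by
    have h1 : y / c ≤ D.L := by rw [div_le_iff₀ hc]; linarith
    obtain ⟨h2, h3⟩ := D.bot _ h1
    rw [h2, h3, mul_div_cancel_left₀ _ hc.ne']
    exact ⟨rfl, rfl⟩
  top := fun y hy => by
    have h1 : D.H ≤ y / c := by rw [le_div_iff₀ hc]; linarith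
    obtain ⟨h2, h3⟩ := D.top _ h1
    rw [h2, h3, mul_div_cancel_left₀ _ hc.ne']
    exact ⟨rfl, rfl⟩

theorem scale_lat {c : ℝ} (hc : 0 < c) (D : Dom) {δ : ℝ} (hδ : 0 < δ) :
    (D.scale c hc).lat (c * δ) = D.lat δ := by
  have hcδ : 0 < c * δ := by positivity
  unfold Dom.lat
  rw [dif_pos hδ, dif_pos hcδ]
  unfold Dom.lat' Dom.scale
  simp only [GD.mk.injEq]
  have e1 : ∀ x, c * x / (c * δ) = x / δ := fun x => mul_div_mul_left _ _ hc.ne'
  have e2 : ∀ y : ℤ, c * δ * y / c = δ * y := fun y => by field_simp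
  refine ⟨by rw [e1], by rw [e1], ?_, ?_⟩
  · funext y; rw [e1, e2]
  · funext y; rw [e1, e2]

/-- **Scaling of the limit.** -/
theorem lim_scale {π : Par} {c : ℝ} (hc : 0 < c) {D : Dom} {μ : ProbabilityMeasure NC}
    (h : Tendsto (fun δ => (D.lat δ).law π δ) (𝓝[>] 0) (𝓝 μ)) :
    Tendsto (fun δ => ((D.scale c hc).lat δ).law π δ) (𝓝[>] 0)
      (𝓝 (μ.map (dil_cont c).measurable.aemeasurable)) := by
  have h1 : Tendsto (fun δ : ℝ => δ / c) (𝓝[>] 0) (𝓝[>] 0) := by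
    rw [tendsto_nhdsWithin_iff]
    constructor
    · have : Tendsto (fun δ : ℝ => δ / c) (𝓝[>] 0) (𝓝 (0 / c)) :=
        (tendsto_id.div_const c).mono_left nhdsWithin_le_nhds
      rwa [zero_div] at this
    · filter_upwards [self_mem_nhdsWithin] with x hx
      exact div_pos hx hc
  have h2 := ProbabilityMeasure.tendsto_map_of_tendsto_of_continuous _ μ (h.comp h1) (dil_cont c)
  refine h2.congr' ?_
  filter_upwards [self_mem_nhdsWithin] with δ hδ
  have hδ' : 0 < δ / c := div_pos hδ hc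
  simp only [Function.comp_apply]
  rw [← law_scale, ← scale_lat hc D hδ', mul_div_cancel₀ δ hc.ne']

/-! ### Limit points -/

/-- The limit points of the laws as the mesh tends to `0`. -/
def LimPts (π : Par) (D : Dom) : Set (ProbabilityMeasure NC) :=
  {μ | MapClusterPt μ (𝓝[>] (0:ℝ)) (fun δ => (D.lat δ).law π δ)}

theorem limPts_eq (π : Par) (D : Dom) : LimPts π D = LevyProkhorov.toMeasure ''
    {y : Yn | MapClusterPt y (𝓝[>] (0:ℝ)) (fD π D)} := by
  ext μ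
  constructor
  · intro h
    refine ⟨LevyProkhorov.ofMeasure μ, ?_, rfl⟩
    exact MapClusterPt.continuousAt_comp
      LevyProkhorov.continuous_ofMeasure_probabilityMeasure.continuousAt h
  · rintro ⟨y, hy, rfl⟩
    exact MapClusterPt.continuousAt_comp
      LevyProkhorov.continuous_toMeasure_probabilityMeasure.continuousAt hy

theorem limPts_compact (π : Par) (D : Dom) : IsCompact (LimPts π D) := by
  rw [limPts_eq]
  exact (clu_compact (cptD π D)).image LevyProkhorov.continuous_toMeasure_probabilityMeasure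

theorem limPts_conn (π : Par) (D : Dom) : IsConnected (LimPts π D) := by
  rw [limPts_eq]
  exact (clu_conn (cptD π D) ((famD π).slow D)).image _
    LevyProkhorov.continuous_toMeasure_probabilityMeasure.continuousOn

theorem limPts_dich (π : Par) (D : Dom) (h : (LimPts π D).Countable) :
    ∃ μ, Tendsto (fun δ => (D.lat δ).law π δ) (𝓝[>] 0) (𝓝 μ) := by
  have h1 : {y : Yn | MapClusterPt y (𝓝[>] (0:ℝ)) (fD π D)}.Countable := by
    rw [limPts_eq] at h
    exact Set.countable_of_injective_of_countable_image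
      (LevyProkhorov.toMeasure_injective.injOn) h
  obtain ⟨y, hy⟩ := dich (cptD π D) ((famD π).slow D) h1
  exact ⟨y.toMeasure, (LevyProkhorov.continuous_toMeasure_probabilityMeasure.tendsto _).comp hy⟩

end Pool.Agent.H950.FK
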