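import Pool.Agent.H950.FK.St
import Pool.Agent.H950.EX.Abs

/-!
The laws of the traces of the FK interfaces.
-/

set_option autoImplicit false

namespace Pool.Agent.H950.FK

open H974 H984P H984N MeasureTheory TopologicalSpace Filter Topology Finset

/-- The parameters of the FK model: the weight `x` of an open edge (`x = p / (1 - p)`) and the weight
`q` of a cluster. -/
structure Par where
  x : ℝ
  q : ℝ
  hx : 0 < x
  hq : 1 ≤ q

/-- Nonempty compact subsets of the plane, with the Hausdorff distance. -/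
abbrev NC : Type := NonemptyCompacts ℂ

namespace GD

variable (D : GD) (π : Par)

theorem wt_pos (F : Finset Edg) : 0 < D.wt π.x π.q F := by
  unfold wt
  have := π.hx
  have := π.hq
  positivity

theorem Zn_pos : 0 < ∑ G ∈ D.E.powerset, D.wt π.x π.q G :=
  Finset.sum_pos (fun G _ => D.wt_pos π G) ⟨∅, Finset.empty_mem_powerset _⟩

theorem mu_nonneg (F : Finset Edg) : 0 ≤ D.mu π.x π.q F :=
  div_nonneg (D.wt_pos π F).le (D.Zn_pos π).le

theorem sum_mu : ∑ F ∈ D.E.powerset, D.mu π.x π.q F = 1 := by
  unfold mu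
  rw [← Finset.sum_div, div_self (D.Zn_pos π).ne']

/-- The law of a function of the configuration. -/
noncomputable def lawT (T : Finset Edg → NC) : Measure NC :=
  ∑ F ∈ D.E.powerset, ENNReal.ofReal (D.mu π.x π.q F) • Measure.dirac (T F)

theorem lawT_apply (T : Finset Edg → NC) {G : Set NC} (hG : MeasurableSet G) :
    D.lawT π T G = ENNReal.ofReal (D.P π.x π.q (fun F => T F ∈ G)) := by
  classical
  unfold lawT P
  rw [Measure.finsetSum_apply, ENNReal.ofReal_sum_of_nonneg]
  · apply Finset.sum_congr rfl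
    intro F _
    rw [Measure.smul_apply, Measure.dirac_apply' _ hG, smul_eq_mul]
    by_cases h : T F ∈ G
    · rw [Set.indicator_of_mem h, if_pos h]; simp
    · rw [Set.indicator_of_notMem h, if_neg h]; simp
  · intro F _
    split_ifs
    · exact D.mu_nonneg π F
    · exact le_rfl

theorem P_true {A : Finset Edg → Prop} (h : ∀ F ⊆ D.E, A F) : D.P π.x π.q A = 1 := by
  classical
  unfold P
  rw [← D.sum_mu π]
  apply Finset.sum_congr rfl
  intro F hF
  rw [if_pos (h F (Finset.mem_powerset.1 hF))]

theorem lawT_univ (T : Finset Edg → NC) : D.lawT π T Set.univ = 1 := by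
  rw [D.lawT_apply π T MeasurableSet.univ, D.P_true π (fun F _ => Set.mem_univ _)]
  simp

/-- The law of a function of the configuration. -/
noncomputable def lawN (T : Finset Edg → NC) : ProbabilityMeasure NC :=
  ⟨D.lawT π T, ⟨D.lawT_univ π T⟩⟩

theorem lawN_apply (T : Finset Edg → NC) {G : Set NC} (hG : MeasurableSet G) :
    (D.lawN π T : Measure NC) G = ENNReal.ofReal (D.P π.x π.q (fun F => T F ∈ G)) :=
  D.lawT_apply π T hG

/-- The law of the trace of the interface at mesh `δ`. -/
noncomputable def law (δ : ℝ) : ProbabilityMeasure NC := D.lawN π (D.trace δ)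

end GD

/-- Laws with the Lévy-Prokhorov metric. -/
abbrev Yn : Type := LevyProkhorov (ProbabilityMeasure NC)

/-- From a coupling to the laws. -/
theorem lp_of {D D' : GD} {π : Par} {κ : Finset Edg → Finset Edg → ℝ}
    (hκ : Coup D D' π.x π.q κ) {T T' : Finset Edg → NC} {r : ℝ} (hr : 0 ≤ r)
    (h : Kp D D' κ (fun F F' => ¬ dist (T F) (T' F') ≤ r) ≤ r) :
    dist (LevyProkhorov.ofMeasure (D.lawN π T) : Yn) (LevyProkhorov.ofMeasure (D'.lawN π T')) ≤
      r := by
  classical
  show levyProkhorovDist (D.lawN π T : Measure NC) (D'.lawN π T' : Measure NC) ≤ r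
  apply levyProkhorovDist_le_of_forall_le _ _ hr
  intro ε B hε hB
  have hε0 : 0 ≤ ε := hr.trans hε.le
  rw [D.lawN_apply π T hB, D'.lawN_apply π T' Metric.isOpen_thickening.measurableSet,
    ← ENNReal.ofReal_add _ hε0]
  swap
  · unfold GD.P
    apply Finset.sum_nonneg
    intro F _
    split_ifs
    · exact D'.mu_nonneg π F
    · exact le_rfl
  apply ENNReal.ofReal_le_ofReal
  have e1 : D.P π.x π.q (fun F => T F ∈ B) =
      ∑ F ∈ D.E.powerset, ∑ F' ∈ D'.E.powerset, if T F ∈ B then κ F F' else 0 := by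
    unfold GD.P
    apply Finset.sum_congr rfl
    intro F hF
    by_cases h1 : T F ∈ B
    · simp only [if_pos h1]
      rw [hκ.fst F (Finset.mem_powerset.1 hF)]
    · simp only [if_neg h1, Finset.sum_const_zero]
  have e2 : D'.P π.x π.q (fun F => T' F ∈ Metric.thickening ε B) =
      ∑ F ∈ D.E.powerset, ∑ F' ∈ D'.E.powerset,
        if T' F' ∈ Metric.thickening ε B then κ F F' else 0 := by
    unfold GD.P
    rw [Finset.sum_comm]
    apply Finset.sum_congr rfl
    intro F' hF'
    by_cases h1 : T' F' ∈ Metric.thickening ε B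
    · simp only [if_pos h1]
      rw [hκ.snd F' (Finset.mem_powerset.1 hF')]
    · simp only [if_neg h1, Finset.sum_const_zero]
  rw [e1, e2]
  refine le_trans ?_ (add_le_add le_rfl (h.trans hε.le))
  unfold Kp
  rw [← Finset.sum_add_distrib]
  apply Finset.sum_le_sum
  intro F _
  rw [← Finset.sum_add_distrib]
  apply Finset.sum_le_sum
  intro F' _
  have hk := hκ.nn F F'
  by_cases h1 : T F ∈ B
  · rw [if_pos h1]
    by_cases h2 : dist (T F) (T' F') ≤ r
    · have h3 : T' F' ∈ Metric.thickening ε B := by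
        rw [Metric.mem_thickening_iff]
        refine ⟨_, h1, ?_⟩
        rw [dist_comm]
        exact lt_of_le_of_lt h2 hε
      rw [if_pos h3]
      split_ifs <;> linarith
    · rw [if_pos h2]
      split_ifs <;> linarith
  · rw [if_neg h1]
    split_ifs <;> linarith

/-- The identity coupling. -/
theorem id_coup (D : GD) (π : Par) : Coup D D π.x π.q
    (fun F F' => if F = F' then D.mu π.x π.q F else 0) := by
  classical
  refine ⟨fun F F' => ?_, fun F hF => ?_, fun F' hF' => ?_⟩
  · split_ifs
    · exact D.mu_nonneg π F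
    · exact le_rfl
  · rw [Finset.sum_ite_eq, if_pos (Finset.mem_powerset.2 hF)]
  · have : ∀ F ∈ D.E.powerset, (if F = F' then D.mu π.x π.q F else 0) =
        if F' = F then D.mu π.x π.q F' else 0 := by
      intro F _
      by_cases h : F = F'
      · rw [if_pos h, if_pos h.symm, h]
      · rw [if_neg h, if_neg (fun h' => h h'.symm)]
    rw [Finset.sum_congr rfl this, Finset.sum_ite_eq, if_pos (Finset.mem_powerset.2 hF')]

/-- Close functions of the same configuration have close laws. -/
theorem lp_same {D : GD} {π : Par} {T T' : Finset Edg → NC} {r : ℝ} (hr : 0 ≤ r)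
    (h : ∀ F ⊆ D.E, dist (T F) (T' F) ≤ r) :
    dist (LevyProkhorov.ofMeasure (D.lawN π T) : Yn) (LevyProkhorov.ofMeasure (D.lawN π T')) ≤
      r := by
  classical
  apply lp_of (id_coup D π) hr
  refine le_trans (le_of_eq ?_) hr
  unfold Kp
  apply Finset.sum_eq_zero
  intro F hF
  apply Finset.sum_eq_zero
  intro F' _
  beta_reduce
  by_cases h1 : F = F'
  · rw [← h1, if_neg (not_not.2 (h F (Finset.mem_powerset.1 hF)))]
  · rw [if_neg h1, ite_self]

/-- The Lévy-Prokhorov distance is at most `1`. -/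
theorem lp_le_one (μ ν : Yn) : dist μ ν ≤ 1 := by
  show levyProkhorovDist (μ.toMeasure : Measure NC) (ν.toMeasure : Measure NC) ≤ 1
  unfold levyProkhorovDist
  have h := levyProkhorovEDist_le_max_measure_univ (μ.toMeasure : Measure NC)
    (ν.toMeasure : Measure NC)
  rw [measure_univ, measure_univ, max_self] at h
  exact ENNReal.toReal_mono (by simp) h

theorem tendsto_iff {ι : Type*} {l : Filter ι} {f : ι → ProbabilityMeasure NC}
    {μ : ProbabilityMeasure NC} : Tendsto (fun i => (LevyProkhorov.ofMeasure (f i) : Yn)) l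
      (𝓝 (LevyProkhorov.ofMeasure μ)) ↔ Tendsto f l (𝓝 μ) := by
  constructor
  · intro h
    exact (LevyProkhorov.continuous_toMeasure_probabilityMeasure.tendsto _).comp h
  · intro h
    exact (LevyProkhorov.continuous_ofMeasure_probabilityMeasure.tendsto _).comp h

/-- Relative compactness. -/
theorem precompact {D : ℕ → GD} {π : Par} {K : ℕ → Finset Edg → NC} {B : Set ℂ}
    (hB : IsCompact B) (h : ∀ i, ∀ F ⊆ (D i).E, (K i F : Set ℂ) ⊆ B) :
    ∃ φ : ℕ → ℕ, StrictMono φ ∧ ∃ y : Yn,
      Tendsto (fun i => (LevyProkhorov.ofMeasure ((D (φ i)).lawN π (K (φ i))) : Yn)) atTop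
        (𝓝 y) := by
  set T : Set (ProbabilityMeasure NC) := Set.range (fun i => (D i).lawN π (K i)) with hT
  have htight : IsTightMeasureSet {((ν : ProbabilityMeasure NC) : Measure NC) | ν ∈ T} := by
    rw [isTightMeasureSet_iff_exists_isCompact_measure_compl_le]
    intro ε _
    have hK := NonemptyCompacts.isCompact_subsets_of_isCompact hB
    refine ⟨_, hK, ?_⟩
    rintro ν ⟨ν', ⟨i, rfl⟩, rfl⟩
    rw [(D i).lawN_apply π _ hK.isClosed.measurableSet.compl]
    have h0 : (D i).P π.x π.q (fun F => K i F ∈ {K : NC | (K : Set ℂ) ⊆ B}ᶜ) = 0 := by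
      classical
      unfold GD.P
      apply Finset.sum_eq_zero
      intro F hF
      rw [if_neg]
      intro h2
      exact h2 (h i F (Finset.mem_powerset.1 hF))
    rw [h0, ENNReal.ofReal_zero]
    exact bot_le
  have hcomp := isCompact_closure_of_isTightMeasureSet htight
  obtain ⟨μ, _, φ, hφ, hμ⟩ := hcomp.tendsto_subseq
    (x := fun i => (D i).lawN π (K i)) (fun i => subset_closure ⟨i, rfl⟩)
  exact ⟨φ, hφ, LevyProkhorov.ofMeasure μ, tendsto_iff.2 hμ⟩

end Pool.Agent.H950.FK
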