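import Pool.Agent.H950.FK.DomFam

/-!
Rectangles with wired left and lower sides.
-/

set_option autoImplicit false

namespace Pool.Agent.H950.FK

open H974 H984P H984N MeasureTheory TopologicalSpace Filter Topology Finset
open Pool.Agent.H950.EX (Cpt Slow clu_iff clu_compact clu_conn)

/-- The lattice rectangle with the vertices `(x, y)`, `0 ≤ x ≤ m`, `0 ≤ y ≤ n`: the left and the lower
side are wired, the vertices to the right of the right side and above the upper side are free. -/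
def rct (m n : ℕ) : GD where
  lo := 0
  hi := n + 1
  w := fun y => if y ≤ 0 then m else 0
  z := fun y => if y ≤ n then m + 1 else 1
  lohi := by omega
  lt := fun y => by split_ifs <;> omega
  bot := fun y hy => by
    rw [if_pos hy, if_pos (le_refl _), if_pos (by omega)]
    exact ⟨rfl, rfl⟩
  top := fun y hy => by
    rw [if_neg (by omega), if_neg (by omega), if_neg (by omega)]
    exact ⟨rfl, rfl⟩

theorem rct_siz {m n : ℕ} {δ K : ℝ} (hδ : 0 < δ) (hm : δ * m ≤ K) (hn : δ * n ≤ K) :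
    Siz (rct m n) δ (K + δ) := by
  have hK : 0 ≤ K := le_trans (by positivity) hm
  refine ⟨?_, ?_, fun y => ?_, fun y => ?_⟩
  · show -(K + δ) ≤ δ * ((0:ℤ) : ℝ)
    push_cast
    linarith
  · show δ * (((n:ℤ) + 1 : ℤ) : ℝ) ≤ K + δ
    push_cast
    linarith
  · show -(K + δ) ≤ δ * ((if y ≤ 0 then (m:ℤ) else 0 : ℤ) : ℝ)
    split_ifs
    · push_cast
      have : 0 ≤ δ * m := by positivity
      linarith
    · push_cast
      linarith
  · show δ * ((if y ≤ n then (m:ℤ) + 1 else 1 : ℤ) : ℝ) ≤ K + δ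
    split_ifs
    · push_cast
      linarith
    · push_cast
      linarith

/-- Comparison of a rectangle with a smaller one. -/
theorem rct_half {π : Par} {m n m' n' : ℕ} (hm : m' ≤ m) (hn : n' ≤ n) {δ K s : ℝ} (hδ : 0 < δ)
    (h1 : δ * m ≤ K) (h2 : δ * n ≤ K) (hs : δ * (((m:ℝ) - m') + ((n:ℝ) - n')) ≤ s) :
    dist (fl (rct m' n') π δ) (fl (rct m n) π δ) ≤ 4 * (K + δ + 2) * (s + δ) ^ (1/3 : ℝ) := by
  have hm' : (m' : ℝ) ≤ m := by exact_mod_cast hm
  have hn' : (n' : ℝ) ≤ n := by exact_mod_cast hn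
  have hs0 : 0 ≤ s := le_trans (mul_nonneg hδ.le (by linarith)) hs
  have g1 : δ * m' ≤ K := (mul_le_mul_of_nonneg_left hm' hδ.le).trans h1
  have g2 : δ * n' ≤ K := (mul_le_mul_of_nonneg_left hn' hδ.le).trans h2
  apply pair mainT traceT (v := ((m:ℤ) - m', (n:ℤ) - n')) _ _ (rct_siz hδ g1 g2)
    (rct_siz hδ h1 h2) hδ hs0 _ _ _
  · refine ⟨fun y => ?_, fun y => ?_⟩
    · show (if y ≤ 0 then (m':ℤ) else 0) ≤ (if y ≤ 0 then (m:ℤ) else 0)
      split_ifs <;> omega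
    · show (if y ≤ (n':ℤ) then (m':ℤ) + 1 else 1) ≤ (if y ≤ (n:ℤ) then (m:ℤ) + 1 else 1)
      split_ifs <;> omega
  · refine ⟨fun y => ?_, fun y => ?_⟩
    · show (if y ≤ 0 then (m:ℤ) else 0) ≤
        (if y - ((n:ℤ) - n') ≤ 0 then (m':ℤ) else 0) + ((m:ℤ) - m')
      split_ifs <;> omega
    · show (if y ≤ (n:ℤ) then (m:ℤ) + 1 else 1) ≤
        (if y - ((n:ℤ) - n') ≤ (n':ℤ) then (m':ℤ) + 1 else 1) + ((m:ℤ) - m')
      split_ifs <;> omega
  · show δ * (|(((m:ℤ) - m' : ℤ) : ℝ)| + |(((n:ℤ) - n' : ℤ) : ℝ)|) ≤ s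
    push_cast
    rw [abs_of_nonneg (by linarith), abs_of_nonneg (by linarith)]
    exact hs
  · show δ * |((((n':ℤ) + 1 : ℤ) : ℝ)) - (((n:ℤ) + 1 : ℤ) : ℝ)| ≤ s
    push_cast
    rw [abs_sub_comm, abs_of_nonneg (by linarith)]
    refine le_trans (mul_le_mul_of_nonneg_left ?_ hδ.le) hs
    linarith
  · show δ * |((0:ℤ) : ℝ) - ((0:ℤ) : ℝ)| ≤ s
    rw [sub_self, abs_zero, mul_zero]
    exact hs0

/-- **Two rectangles at the same mesh.** -/
theorem rct_lp {π : Par} {m n m' n' : ℕ} {δ K s : ℝ} (hδ : 0 < δ)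
    (h1 : δ * m ≤ K) (h2 : δ * n ≤ K) (h1' : δ * m' ≤ K) (h2' : δ * n' ≤ K)
    (hs : δ * (|(m:ℝ) - m'| + |(n:ℝ) - n'|) ≤ s) :
    dist (fl (rct m n) π δ) (fl (rct m' n') π δ) ≤ 8 * (K + δ + 2) * (s + δ) ^ (1/3 : ℝ) := by
  have c1 : ∀ a b : ℕ, (a : ℝ) - ((min a b : ℕ) : ℝ) ≤ |(a:ℝ) - b| := by
    intro a b
    rcases min_choice a b with h | h <;> rw [h]
    · rw [sub_self]; exact abs_nonneg _
    · exact le_abs_self _
  have e1 := rct_half (π := π) (min_le_left m m') (min_le_left n n') hδ h1 h2 (s := s)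
    (le_trans (mul_le_mul_of_nonneg_left (add_le_add (c1 m m') (c1 n n')) hδ.le) hs)
  have e2 := rct_half (π := π) (min_le_right m m') (min_le_right n n') hδ h1' h2' (s := s) (by
    refine le_trans (mul_le_mul_of_nonneg_left (add_le_add ?_ ?_) hδ.le) hs
    · rw [min_comm, abs_sub_comm]; exact c1 m' m
    · rw [min_comm, abs_sub_comm]; exact c1 n' n)
  have e3 := dist_triangle_left (fl (rct m n) π δ) (fl (rct m' n') π δ)
    (fl (rct (min m m') (min n n')) π δ)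
  linarith

/-- **Two rectangles at two meshes.** -/
theorem rct_lp2 {π : Par} {m n m' n' : ℕ} {δ δ' K : ℝ} (hδ : 0 < δ) (hδ' : 0 < δ') (hK : 1 ≤ K)
    (h1 : δ * m ≤ K) (h2 : δ * n ≤ K) (h1' : δ' * m' ≤ K) (h2' : δ' * n' ≤ K) :
    dist (fl (rct m n) π δ) (fl (rct m' n') π δ') ≤
      200 * K ^ 2 * (|δ * m - δ' * m'| + |δ * n - δ' * n'| + |δ - δ'| / δ' + δ') ^ (1/3 : ℝ) := by
  obtain ⟨a, ha⟩ : ∃ a, a = |δ * m - δ' * m'| := ⟨_, rfl⟩
  obtain ⟨b, hb⟩ : ∃ b, b = |δ * n - δ' * n'| := ⟨_, rfl⟩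
  obtain ⟨ρ, hρ⟩ : ∃ ρ, ρ = |δ - δ'| / δ' := ⟨_, rfl⟩
  have ha0 : 0 ≤ a := by rw [ha]; positivity
  have hb0 : 0 ≤ b := by rw [hb]; positivity
  have hρ0 : 0 ≤ ρ := by rw [hρ]; positivity
  obtain ⟨u, hu⟩ : ∃ u, u = a + b + ρ + δ' := ⟨_, rfl⟩
  have hu0 : 0 < u := by rw [hu]; positivity
  rw [← ha, ← hb, ← hρ, ← hu]
  have hK2 : 1 ≤ K ^ 2 := one_le_pow₀ hK
  by_cases hu1 : 1/2 ≤ u
  · refine (lp_le_one _ _).trans ?_
    have g1 : (1/2 : ℝ) ≤ u ^ (1/3 : ℝ) := by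
      calc (1/2 : ℝ) = (1/2 : ℝ) ^ (1:ℝ) := (Real.rpow_one _).symm
        _ ≤ (1/2 : ℝ) ^ (1/3 : ℝ) :=
          Real.rpow_le_rpow_of_exponent_ge (by norm_num) (by norm_num) (by norm_num)
        _ ≤ u ^ (1/3 : ℝ) := Real.rpow_le_rpow (by norm_num) hu1 (by norm_num)
    nlinarith
  push Not at hu1
  have hd : |δ - δ'| = ρ * δ' := by rw [hρ]; field_simp
  have hρ1 : ρ ≤ 1/2 := by linarith
  have hδ1 : δ' ≤ 1/2 := by linarith
  have hd2 := abs_le.1 (hd.le)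
  have q1 : δ' ≤ 2 * δ := by nlinarith
  have m0 : (0:ℝ) ≤ m := Nat.cast_nonneg m
  have n0 : (0:ℝ) ≤ n := Nat.cast_nonneg n
  have k1 : δ' * m ≤ 2 * K := by nlinarith
  have k2 : δ' * n ≤ 2 * K := by nlinarith
  have k3 : δ' * |(m:ℝ) - m'| ≤ a + 2 * K * ρ := by
    have e : δ' * |(m:ℝ) - m'| = |(δ * m - δ' * m') + (δ' - δ) * m| := by
      rw [← abs_of_pos hδ', ← abs_mul, abs_of_pos hδ']
      congr 1
      ring
    rw [e]
    refine (abs_add_le _ _).trans (add_le_add ha.ge ?_)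
    rw [abs_mul, abs_sub_comm, hd, abs_of_nonneg m0]
    nlinarith
  have k4 : δ' * |(n:ℝ) - n'| ≤ b + 2 * K * ρ := by
    have e : δ' * |(n:ℝ) - n'| = |(δ * n - δ' * n') + (δ' - δ) * n| := by
      rw [← abs_of_pos hδ', ← abs_mul, abs_of_pos hδ']
      congr 1
      ring
    rw [e]
    refine (abs_add_le _ _).trans (add_le_add hb.ge ?_)
    rw [abs_mul, abs_sub_comm, hd, abs_of_nonneg n0]
    nlinarith
  have s1 := rct_lp (π := π) (m := m) (n := n) (m' := m') (n' := n') (K := 2 * K)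
    (s := a + b + 4 * K * ρ) hδ' k1 k2 (by linarith) (by linarith) (by linarith)
  have s2 := mesh_lp (π := π) (δ := δ) pth hδ' (rct_siz (m := m) (n := n) hδ' k1 k2)
  rw [← hρ] at s2
  have s3 := dist_triangle (fl (rct m n) π δ) (fl (rct m n) π δ') (fl (rct m' n') π δ')
  have hup : 0 < u ^ (1/3 : ℝ) := by positivity
  have t1 : (a + b + 4 * K * ρ + δ') ^ (1/3 : ℝ) ≤ 4 * K * u ^ (1/3 : ℝ) := by
    calc (a + b + 4 * K * ρ + δ') ^ (1/3 : ℝ) ≤ (4 * K * u) ^ (1/3 : ℝ) :=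
          Real.rpow_le_rpow (by positivity) (by rw [hu]; nlinarith) (by norm_num)
      _ = (4 * K) ^ (1/3 : ℝ) * u ^ (1/3 : ℝ) := Real.mul_rpow (by positivity) hu0.le
      _ ≤ 4 * K * u ^ (1/3 : ℝ) := by
          apply mul_le_mul_of_nonneg_right _ hup.le
          calc (4 * K) ^ (1/3 : ℝ) ≤ (4 * K) ^ (1:ℝ) :=
                Real.rpow_le_rpow_of_exponent_le (by linarith) (by norm_num)
            _ = 4 * K := Real.rpow_one _
  have t2 : u ≤ u ^ (1/3 : ℝ) := le_cube hu0 (by linarith)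
  have t3 : ρ * (2 * (2 * K + δ') + 2 * δ') ≤ 6 * K * u ^ (1/3 : ℝ) := by
    have g1 : ρ * (2 * (2 * K + δ') + 2 * δ') ≤ u * (6 * K) := by
      apply mul_le_mul (by rw [hu]; linarith) (by linarith) (by positivity) hu0.le
    nlinarith
  have t4 : 8 * (2 * K + δ' + 2) * (a + b + 4 * K * ρ + δ') ^ (1/3 : ℝ) ≤
      8 * (5 * K) * (4 * K * u ^ (1/3 : ℝ)) := by
    apply mul_le_mul (by linarith) t1 (by positivity) (by positivity)
  have t5 : K ≤ K ^ 2 := by nlinarith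
  calc dist (fl (rct m n) π δ) (fl (rct m' n') π δ')
      ≤ 6 * K * u ^ (1/3 : ℝ) + 8 * (5 * K) * (4 * K * u ^ (1/3 : ℝ)) := by linarith
    _ = (6 * K + 160 * K ^ 2) * u ^ (1/3 : ℝ) := by ring
    _ ≤ 200 * K ^ 2 * u ^ (1/3 : ℝ) := by
        apply mul_le_mul_of_nonneg_right _ hup.le
        linarith

/-! ### Plane rectangles -/

/-- The rectangle `[0, A] × [0, B]`. -/
structure Rc where
  A : ℝ
  B : ℝ
  hA : 0 < A
  hB : 0 < B

/-- The lattice rectangle at mesh `δ`. -/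
noncomputable def Rc.lat (R : Rc) (δ : ℝ) : GD := rct ⌊R.A / δ⌋₊ ⌊R.B / δ⌋₊

theorem floor_bd {A δ : ℝ} (hA : 0 < A) (hδ : 0 < δ) :
    δ * ⌊A / δ⌋₊ ≤ A ∧ A - δ ≤ δ * ⌊A / δ⌋₊ := by
  have h1 := Nat.floor_le (show 0 ≤ A / δ by positivity)
  have h2 := Nat.lt_floor_add_one (A / δ)
  have h3 : δ * (A / δ) = A := by field_simp
  constructor <;> nlinarith

/-- The law at mesh `δ` of the interface in `R`. -/
noncomputable def fR (π : Par) (R : Rc) (δ : ℝ) : Yn := fl (R.lat δ) π δ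

/-- Rectangles whose sides differ by at most `t`. -/
def NearR (t : ℝ) (R R' : Rc) : Prop := |R.A - R'.A| ≤ t ∧ |R.B - R'.B| ≤ t

theorem fR_lp (π : Par) {R R' : Rc} {δ δ' K : ℝ} (hδ : 0 < δ) (hδ' : 0 < δ') (hK : 1 ≤ K)
    (h1 : R.A ≤ K) (h2 : R.B ≤ K) (h1' : R'.A ≤ K) (h2' : R'.B ≤ K) :
    dist (fR π R δ) (fR π R' δ') ≤ 200 * K ^ 2 * (|R.A - R'.A| + |R.B - R'.B| + |δ - δ'| / δ' +
      2 * δ + 3 * δ') ^ (1/3 : ℝ) := by
  obtain ⟨a1, a2⟩ := floor_bd R.hA hδ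
  obtain ⟨b1, b2⟩ := floor_bd R.hB hδ
  obtain ⟨a1', a2'⟩ := floor_bd R'.hA hδ'
  obtain ⟨b1', b2'⟩ := floor_bd R'.hB hδ'
  refine (rct_lp2 hδ hδ' hK (a1.trans h1) (b1.trans h2) (a1'.trans h1') (b1'.trans h2')).trans ?_
  apply mul_le_mul_of_nonneg_left _ (by positivity)
  apply Real.rpow_le_rpow (by positivity) _ (by norm_num)
  have key : ∀ x x' y y' : ℝ, y ≤ x → x - δ ≤ y → y' ≤ x' → x' - δ' ≤ y' →
      |y - y'| ≤ |x - x'| + δ + δ' := by
    intro x x' y y' g1 g2 g3 g4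
    rw [abs_le]
    constructor
    · linarith [neg_abs_le (x - x')]
    · linarith [le_abs_self (x - x')]
  have k1 := key _ _ _ _ a1 a2 a1' a2'
  have k2 := key _ _ _ _ b1 b2 b1' b2'
  linarith

theorem dense_rc : ∃ T : ℕ → Rc, ∀ R, ∀ ε > 0, ∃ n, NearR ε R (T n) := by
  obtain ⟨f, hf⟩ : ∃ f : Rc → ℝ × ℝ, f = fun R => (R.A, R.B) := ⟨_, rfl⟩
  have hne : Nonempty (Set.range f) := ⟨⟨f ⟨1, 1, one_pos, one_pos⟩, ⟨_, rfl⟩⟩⟩
  obtain ⟨u, hu⟩ := TopologicalSpace.exists_dense_seq (Set.range f)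
  have h1 : ∀ n, ∃ R : Rc, f R = (u n : ℝ × ℝ) := fun n => (u n).2
  choose T hT using h1
  refine ⟨T, fun R ε hε => ?_⟩
  obtain ⟨n, hn⟩ := Metric.denseRange_iff.1 hu ⟨f R, ⟨R, rfl⟩⟩ ε hε
  refine ⟨n, ?_⟩
  have h2 : dist (f R) (f (T n)) < ε := by rw [hT n]; exact hn
  rw [hf, Prod.dist_eq, max_lt_iff] at h2
  exact ⟨h2.1.le, h2.2.le⟩

theorem cptR (π : Par) (R : Rc) : Cpt (fR π R) := by
  intro δ h0 h1
  obtain ⟨M, hM, hM'⟩ := seq_bdd h1
  obtain ⟨K, hK⟩ : ∃ K, K = max R.A R.B := ⟨_, rfl⟩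
  have kA : R.A ≤ K := by rw [hK]; exact le_max_left _ _
  have kB : R.B ≤ K := by rw [hK]; exact le_max_right _ _
  obtain ⟨φ, hφ, y, hy⟩ := precompact (D := fun i => R.lat (δ i)) (π := π)
    (K := fun i => (R.lat (δ i)).trace (δ i))
    (ProperSpace.isCompact_closedBall (0:ℂ) (2 * (K + M) + 2 * M)) (fun i F hF z hz => by
      have h2 := trace_ball pth (h0 i) (rct_siz (h0 i) ((floor_bd R.hA (h0 i)).1.trans kA)
        ((floor_bd R.hB (h0 i)).1.trans kB)) hF hz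
      rw [mem_closedBall_zero_iff]
      have := hM' i
      linarith)
  exact ⟨φ, hφ, y, hy⟩

theorem famR (π : Par) : Fam NearR (fR π) where
  cpt := cptR π
  refl := fun R ρ hρ => by
    unfold NearR
    rw [sub_self, sub_self, abs_zero]
    exact ⟨hρ.le, hρ.le⟩
  apx := fun R ε hε => by
    obtain ⟨K, hK⟩ : ∃ K, K = max R.A R.B + 2 := ⟨_, rfl⟩
    have kA : R.A ≤ K - 2 := by rw [hK]; linarith [le_max_left R.A R.B]
    have kB : R.B ≤ K - 2 := by rw [hK]; linarith [le_max_right R.A R.B]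
    have hA := R.hA
    have hK1 : 1 ≤ K := by linarith
    obtain ⟨η, hη, hp⟩ := small_pow (C := 200 * K ^ 2) (by positivity) hε
    refine ⟨min (η / 10) (1/2), lt_min (by positivity) (by norm_num), ?_⟩
    intro R' δ δ' hn hδ hδ' hd hm
    have r1 : min (η / 10) (1/2) ≤ η / 10 := min_le_left _ _
    have r2 : min (η / 10) (1/2) ≤ (1/2 : ℝ) := min_le_right _ _
    have n1 := hn.1.trans r1
    have n2 := hn.2.trans r1
    have n3 := abs_le.1 (hn.1.trans r2)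
    have n4 := abs_le.1 (hn.2.trans r2)
    have d1 : |δ - δ'| / δ' ≤ η / 10 := by
      rw [div_le_iff₀ hδ']
      exact hm.trans (mul_le_mul_of_nonneg_right r1 hδ'.le)
    have d2 : δ ≤ 2 * δ' := by
      have := (abs_le.1 (hm.trans (mul_le_mul_of_nonneg_right r2 hδ'.le))).2
      linarith
    have d3 : δ' ≤ η / 10 := hd.trans r1
    refine (fR_lp π hδ hδ' hK1 (by linarith) (by linarith) (by linarith) (by linarith)).trans
      (hp _ (by positivity) (by linarith))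
  dense := dense_rc

/-! ### Scaling -/

/-- The scaled rectangle. -/
def Rc.scale (c : ℝ) (hc : 0 < c) (R : Rc) : Rc := ⟨c * R.A, c * R.B, mul_pos hc R.hA, mul_pos hc R.hB⟩

theorem rscale_lat {c : ℝ} (hc : 0 < c) (R : Rc) (δ : ℝ) :
    (R.scale c hc).lat (c * δ) = R.lat δ := by
  unfold Rc.lat Rc.scale
  simp only
  rw [mul_div_mul_left _ _ hc.ne', mul_div_mul_left _ _ hc.ne']

/-- **Scaling of the limit.** -/
theorem rlim_scale {π : Par} {c : ℝ} (hc : 0 < c) {R : Rc} {μ : ProbabilityMeasure NC}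
    (h : Tendsto (fun δ => (R.lat δ).law π δ) (𝓝[>] 0) (𝓝 μ)) :
    Tendsto (fun δ => ((R.scale c hc).lat δ).law π δ) (𝓝[>] 0)
      (𝓝 (μ.map (dil_cont c).measurable.aemeasurable)) := by
  have h1 : Tendsto (fun δ : ℝ => δ / c) (𝓝[>] 0) (𝓝[>] 0) := by
    rw [tendsto_nhdsWithin_iff]
    constructor
    · have : Tendsto (fun δ : ℝ => δ / c) (𝓝[>] 0) (𝓝 (0 / c)) :=
        (tendsto_id.div_const c).mono_left nhdsWithin_le_nhds
      rwa [zero_div] at this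
    · filter_upwards [self_mem_nhdsWithin] with x hx
      exact div_pos hx hc
  have h2 := ProbabilityMeasure.tendsto_map_of_tendsto_of_continuous _ μ (h.comp h1) (dil_cont c)
  refine h2.congr ?_
  intro δ
  simp only [Function.comp_apply]
  rw [← law_scale, ← rscale_lat hc R (δ / c), mul_div_cancel₀ δ hc.ne']

/-- The limit points of the laws as the mesh tends to `0`. -/
def LimR (π : Par) (R : Rc) : Set (ProbabilityMeasure NC) :=
  {μ | MapClusterPt μ (𝓝[>] (0:ℝ)) (fun δ => (R.lat δ).law π δ)}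

theorem limR_eq (π : Par) (R : Rc) : LimR π R = LevyProkhorov.toMeasure ''
    {y : Yn | MapClusterPt y (𝓝[>] (0:ℝ)) (fR π R)} := by
  ext μ
  constructor
  · intro h
    refine ⟨LevyProkhorov.ofMeasure μ, ?_, rfl⟩
    exact MapClusterPt.continuousAt_comp
      LevyProkhorov.continuous_ofMeasure_probabilityMeasure.continuousAt h
  · rintro ⟨y, hy, rfl⟩
    exact MapClusterPt.continuousAt_comp
      LevyProkhorov.continuous_toMeasure_probabilityMeasure.continuousAt hy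

theorem limR_compact (π : Par) (R : Rc) : IsCompact (LimR π R) := by
  rw [limR_eq]
  exact (clu_compact (cptR π R)).image LevyProkhorov.continuous_toMeasure_probabilityMeasure

theorem limR_conn (π : Par) (R : Rc) : IsConnected (LimR π R) := by
  rw [limR_eq]
  exact (clu_conn (cptR π R) ((famR π).slow R)).image _
    LevyProkhorov.continuous_toMeasure_probabilityMeasure.continuousOn

theorem limR_dich (π : Par) (R : Rc) (h : (LimR π R).Countable) :
    ∃ μ, Tendsto (fun δ => (R.lat δ).law π δ) (𝓝[>] 0) (𝓝 μ) := by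
  have h1 : {y : Yn | MapClusterPt y (𝓝[>] (0:ℝ)) (fR π R)}.Countable := by
    rw [limR_eq] at h
    exact Set.countable_of_injective_of_countable_image
      (LevyProkhorov.toMeasure_injective.injOn) h
  obtain ⟨y, hy⟩ := dich (cptR π R) ((famR π).slow R) h1
  exact ⟨y.toMeasure, (LevyProkhorov.continuous_toMeasure_probabilityMeasure.tendsto _).comp hy⟩

end Pool.Agent.H950.FK
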