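import Pool.Agent.H950.FK.Defs
import Pool.Agent.H950.FK.Cl
import Pool.Graph.R_seed8.H389R2.CD.Fin

/-!
Statements of the project FK (definitions: `Pool.Agent.H950.FK.Defs`, `Pool.Agent.H950.FK.Cl`).
-/

set_option autoImplicit false

namespace Pool.Agent.H950.FK

open H974 H984P H984N H342P H443B MeasureTheory TopologicalSpace

/-! ### Couplings of FK measures -/

/-- Couplings of the FK measures in the domains `D` and `D'`. -/
structure Coup (D D' : GD) (x q : ℝ) (κ : Finset Edg → Finset Edg → ℝ) : Prop where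
  nn : ∀ F F', 0 ≤ κ F F'
  fst : ∀ F ⊆ D.E, ∑ F' ∈ D'.E.powerset, κ F F' = D.mu x q F
  snd : ∀ F' ⊆ D'.E, ∑ F ∈ D.E.powerset, κ F F' = D'.mu x q F'

open Classical in
/-- Probability of an event under the coupling. -/
noncomputable def Kp (D D' : GD) (κ : Finset Edg → Finset Edg → ℝ)
    (A : Finset Edg → Finset Edg → Prop) : ℝ :=
  ∑ F ∈ D.E.powerset, ∑ F' ∈ D'.E.powerset, if A F F' then κ F F' else 0

/-- **T3.** The number of clusters, in a rectangle. (`K` is the number of free vertices of the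
rectangle: each of them is a cluster.) Let `V = Icc l r ×ˢ Icc c d`, `A = F ∪ (We ∩ RE l r c d)`.
All vertices of `V ∩ W` are connected in `A` (along the rows to the column `l`, and in this column);
a free vertex is isolated in `A` and in `cfg F`; for a vertex `v ∈ V` which is not free, the map
(cluster of `v` in `A`) ↦ (cluster of `v` in `cfg F`) is well defined and injective: two vertices of
`V` connected in `cfg F` are connected in `A`, as the edges of `F` join vertices of `V`, and the edges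
of `We` join wired vertices (a path in `cfg F` between two vertices of `V` either avoids `We`, or
meets the wired vertices; before its first and after its last wired vertex it uses only edges of `F`);
it is onto the clusters in `ncl` (each cluster of a vertex which is not free meets `V`: for a wired
vertex take `(l, c)`). -/
def S_ncl : Prop := ∀ (D : GD) (l r c d : ℤ), (∀ y, l ≤ D.w y) → (∀ y, D.z y ≤ r) → c ≤ D.lo →
  D.hi ≤ d → ∃ K : ℕ, ∀ F ⊆ D.E,
    kcl (Finset.Icc l r ×ˢ Finset.Icc c d) (↑F ∪ (D.We ∩ ↑(RE l r c d))) = D.ncl F + K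

/-- **T4.** Monotonicity of the FK measures, as a coupling.
Proof from T1-T3: take `l ≤ w`, `z' ≤ r`, `c ≤ lo, lo'`, `hi, hi' ≤ d` (`w`, `z` take finitely many
values) and `S = RE l r c d`. For `A ⊆ S` put `f A = 0` unless `We ∩ S ⊆ A` and no edge of `A` has an
end in `Z`; then `A = F ∪ (We ∩ S)` with `F = A \ We ⊆ D.E` (disjoint), and `f A = D.mu x q F`
(`= x ^ #A * q ^ kcl V0 A` times a constant, by T3); `g` in the same way with `D'`. Holley's condition
for `f, g` holds since `We ⊆ We'`, `Z' ⊆ Z` and by T1 (`1 ≤ q`). Apply T2 and put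
`κ F F' = κ0 (F ∪ (We ∩ S)) (F' ∪ (We' ∩ S))`. -/
def S_cmp : Prop := ∀ (D D' : GD), D.Le D' → ∀ x q : ℝ, 0 < x → 1 ≤ q →
  ∃ κ : Finset Edg → Finset Edg → ℝ, Coup D D' x q κ ∧
    ∀ F ⊆ D.E, ∀ F' ⊆ D'.E, κ F F' ≠ 0 → D.cfg F ⊆ D'.cfg F'

/-! ### Boxes -/

/-- The wired cluster meets the box `[z, z + r]`. -/
def hitC (D : GD) (z : ℤ × ℤ) (r : ℤ) (F : Finset Edg) : Prop :=
  ∃ u ∈ D.clu F, (z.1 ≤ u.1 ∧ u.1 ≤ z.1 + r) ∧ (z.2 ≤ u.2 ∧ u.2 ≤ z.2 + r)

/-- The free dual cluster meets the box `[z, z + r]`. -/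
def hitD (D : GD) (z : ℤ × ℤ) (r : ℤ) (F : Finset Edg) : Prop :=
  ∃ f ∈ D.dclu F, (z.1 ≤ f.1 ∧ f.1 < z.1 + r) ∧ (z.2 ≤ f.2 ∧ f.2 < z.2 + r)

/-- **T5.** Translation invariance. With `sh e = (e.1 + v.1, e.2.1 + v.2, e.2.2)`: `F ↦ F.image sh` is
a bijection from `D.E.powerset` to `(D.shift v).E.powerset`, `Reach`, `DReach` are equivariant, so
`ncl`, `wt`, `mu` are invariant and `clu`, `dclu` are translated by `v`. -/
def S_shift : Prop := ∀ (D : GD) (v : ℤ × ℤ) (x q : ℝ) (z : ℤ × ℤ) (r : ℤ),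
  (D.shift v).P x q (hitC (D.shift v) z r) = D.P x q (hitC D (z.1 - v.1, z.2 - v.2) r) ∧
  (D.shift v).P x q (hitD (D.shift v) z r) = D.P x q (hitD D (z.1 - v.1, z.2 - v.2) r)

/-! ### The interface -/

/-- The two-sided orbit of the first state. -/
def line (D : GD) (F : Finset Edg) : Set St :=
  {σ | ∃ s t : ℕ, orb (D.cfg F) σ s = orb (D.cfg F) D.start t}

/-- **T6.** Potentials. Proof: the set `line D F` is invariant (`σ ∈ line ↔ nxt (cfg F) σ ∈ line`), so
the library theorem `pot_of_inv` (see its use in `H443B.mem_orbit`, file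
`Pool/Graph/R_seed8/H443R3/BT/Conv.lean`) gives `hv, hf` with `hv σ.1 + hf (face σ) = b2 (σ ∈ line)`,
`hv` constant along the edges of `cfg F` and `hf` constant across the other edges. Then `hv` is
constant on `clu` (the wired vertices are connected by edges of `We`: go left in the rows), `hf` is
constant on `dclu` (the faces with a free corner are connected across edges with a free end: go right
in the rows). Add the constant `hv D.start.1` to `hv` and `hf`. -/
def S_pot : Prop := ∀ (D : GD) (F : Finset Edg), F ⊆ D.E → ∃ hv hf : Vtx → ZMod 2,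
  (∀ σ : St, σ ∈ line D F ↔ hv σ.1 + hf (face σ) = 1) ∧
  (∀ v ∈ D.clu F, hv v = 0) ∧ (∀ f ∈ D.dclu F, hf f = 1)

/-- **T7.** The interface as a path. Proof from T6 (`C = D.cfg F`; `nxt C` is injective: `nxt_bij`,
used in `Conv.lean`). Every state `σ` of the orbit of `D.start` has `σ.1 ∈ clu`, `face σ ∈ dclu` (both
are preserved by `nxt`). The explicit orbit of `D.stop` is `((w lo, lo - j), se)`, `((w lo, lo - j), ne)`
(going down for ever), and the backward orbit of `D.start` is `((w hi, hi + j), ne)`,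
`((w hi, hi + j), se)`. `D.stop ∈ line` by T6; as the orbit of `stop` does not contain `start`,
`stop` is on the orbit of `start`. No state is repeated on the orbit of `start` (else it would be
periodic). If `σ ∈ con`, then `σ ∈ line` by T6, it is not before `start` (its row is at most `hi`) and
not after `stop` (its row is at least `lo`). Conversely a state `walk k`, `k ≤ len`, in a row above
`hi` is (vertex in `clu`, face in `dclu`) of the form `((w hi, y), ne/se)`, so it is before `start`: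
contradiction; in the same way for the rows below `lo`. -/
def S_path : Prop := ∀ (D : GD), ∀ F ⊆ D.E, (∃ k, D.walk F k = D.stop) ∧
  ∀ σ, σ ∈ D.con F ↔ ∃ k ≤ D.len F, D.walk F k = σ

/-- **T8.** If a box contains a vertex of the wired cluster and a face of the free dual cluster, then
the interface visits the box (or the box is above or below the domain, and it visits the columns of
the box in the row `hi`, resp. `lo`). Proof from T6: if `hi < y1` then `σ = start` works, if `y2 < lo`
then `σ = stop`. Otherwise replace `y1` by `max y1 lo` and `y2` by `min y2 hi` (above `hi` all vertices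
of `clu` have `x ≤ w hi` and all faces of `dclu` have `w hi ≤ x`, so we can project the vertex and
the face to the row `hi`; in the same way below). If no state `σ` of `con` has its vertex in the new
box `B`, then for all vertices `v ∈ B` and all corner faces `f` of `v`: `hv v = hf f` (T6: a state `σ` of
`line` in the rows `lo..hi` is in `con`, because `line ∩ rows` is a part of the orbit of
`start`: use T7), so `hv` and `hf` have the same constant value on `B` and the faces which touch it: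
contradiction to `hv = 0` on `clu`, `hf = 1` on `dclu`. -/
def S_con : Prop := ∀ (D : GD), ∀ F ⊆ D.E, ∀ x1 x2 y1 y2 : ℤ,
  (∃ u ∈ D.clu F, (x1 ≤ u.1 ∧ u.1 ≤ x2) ∧ (y1 ≤ u.2 ∧ u.2 ≤ y2)) →
  (∃ f ∈ D.dclu F, (x1 ≤ f.1 ∧ f.1 < x2) ∧ (y1 ≤ f.2 ∧ f.2 < y2)) →
  ∃ τ ∈ D.con F, (x1 ≤ τ.1.1 ∧ τ.1.1 ≤ x2) ∧ (y1 ≤ τ.1.2 ∨ (τ.1.2 = D.hi ∧ D.hi < y1)) ∧
    (τ.1.2 ≤ y2 ∨ (τ.1.2 = D.lo ∧ y2 < D.lo))

/-- **T9.** Telescoping. -/
def S_sum : Prop := ∀ (u : ℤ × ℤ → ℝ), (∀ z, 0 ≤ u z) → (∀ z, u z ≤ 1) → ∀ (v : ℤ × ℤ) (a b c d : ℤ),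
  a ≤ b + 1 → c ≤ d + 1 →
  |∑ z ∈ Finset.Icc a b ×ˢ Finset.Icc c d, (u (z.1 - v.1, z.2 - v.2) - u z)| ≤
    |(v.1 : ℝ)| * (d - c + 1) + |(v.2 : ℝ)| * (b - a + 1)

/-- One of the interfaces has a state which is far from all states of the other one. -/
def Bad (D D' : GD) (m : ℤ) (F F' : Finset Edg) : Prop :=
  (∃ σ ∈ D.con F, ∀ τ ∈ D'.con F', m < sd σ.1 τ.1) ∨
  (∃ τ ∈ D'.con F', ∀ σ ∈ D.con F, m < sd σ.1 τ.1)

/-- **T10.** Proof from T4, T5, T8, T9. Take `κ` from T4 for `D ≤ D'`. If `κ F F' ≠ 0`, then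
`clu F ⊆ clu' F'` and `dclu' F' ⊆ dclu F`.
(i) Let `τ ∈ con' F'` be far from all states of `con F`, `τ.1 = (x', y')`. By T8 for `D`, `F` and the box
`[x' - r, x' + r] × [y' - r, y' + r]` this box contains no vertex of `clu F` (it contains the face of `τ`,
which is in `dclu F`; the state given by T8 would be at distance
`≤ max r (max |hi - hi'| |lo - lo'|)` of `τ.1`). So `hitC D' z r F' ∧ ¬ hitC D z r F` for all `z` with
`x' - r ≤ z.1 ≤ x'`, `y' - r ≤ z.2 ≤ y'`.
(ii) Let `σ ∈ con F` be far from all states of `con' F'`. In the same way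
`hitD D z r F ∧ ¬ hitD D' z r F'` for all `z` with `g.1 - r < z.1 ≤ g.1`, `g.2 - r < z.2 ≤ g.2`,
`g = face σ`.
All these `z` are in the window `[a - r, b] × [c - r, d]` (a face of `dclu` has a corner which is not
wired, so `a ≤ x` for the states; `x < b` since vertices of `clu` are not free). So
`r² κ(Bad) ≤ ∑ z (P'(hitC z) - P(hitC z)) + ∑ z (P(hitD z) - P'(hitD z))`, and
`P'(hitC D' z) ≤ P(hitC (D.shift v) z) = P(hitC D (z - v))` by T4 (for `D' ≤ D.shift v`) and T5, in
the same way for `hitD`; conclude by T9. -/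
def S_main : Prop := ∀ (D D' : GD) (v : ℤ × ℤ) (x q : ℝ), 0 < x → 1 ≤ q → D.Le D' →
  D'.Le (D.shift v) → ∀ (a b c d r : ℤ), (∀ y, a ≤ D.w y) → (∀ y, D'.z y ≤ b) → c ≤ D.lo →
  c ≤ D'.lo → D.hi ≤ d → D'.hi ≤ d → 1 ≤ r →
  ∃ κ, Coup D D' x q κ ∧ Kp D D' κ (Bad D D' (r + |D.hi - D'.hi| + |D.lo - D'.lo|)) ≤
    2 * (|(v.1 : ℝ)| * (d - c + r + 1) + |(v.2 : ℝ)| * (b - a + r + 1)) / (r : ℝ) ^ 2

/-- **T11.** Proof from T7: the trace is the union of the segments between the points of consecutive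
states (distance at most `δ`), `dist (pt δ σ) (pt δ τ) ≤ δ * (2 * sd σ.1 τ.1 + 1)`. -/
def S_trace : Prop := ∀ (D D' : GD), ∀ F ⊆ D.E, ∀ F' ⊆ D'.E, ∀ (m : ℤ) (δ : ℝ), 0 ≤ m → 0 < δ →
  ¬ Bad D D' m F F' → dist (D.trace δ F) (D'.trace δ F') ≤ δ * (2 * m + 2)

end Pool.Agent.H950.FK
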