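import Pool.Agent.H950.FK.Pair
import Pool.Graph.R_seed8.H984R4.NP.PL

/-!
The trace of the interface: position, mesh change, scaling.
-/

set_option autoImplicit false

namespace Pool.Agent.H950.FK

open H974 H984P H984N MeasureTheory TopologicalSpace Filter Topology Finset

namespace GD

variable {D : GD} {F : Finset Edg}

theorem clu_notZ (hF : F ⊆ D.E) {v : Vtx} (h : v ∈ D.clu F) : v ∉ D.Z := by
  obtain ⟨u, hu, hr⟩ := h
  have hWZ : ∀ w : Vtx, w ∈ D.W → w ∉ D.Z := by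
    intro w hw hz
    unfold W at hw
    unfold Z at hz
    simp only [Set.mem_ofPred_eq] at hw hz
    have := D.lt w.2
    omega
  unfold Reach at hr
  rcases Relation.ReflTransGen.cases_tail hr with h | ⟨v', _, hst⟩
  · rw [h]; exact hWZ _ hu
  · obtain ⟨e, he, hor⟩ := hst
    have h2 : src e ∉ D.Z ∧ tgt e ∉ D.Z := by
      rcases he with he | he
      · have h1 := D.mem_E.1 (hF (Finset.mem_coe.1 he))
        exact ⟨h1.1, h1.2.1⟩
      · exact ⟨hWZ _ he.1, hWZ _ he.2⟩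
    rcases hor with ⟨_, h3⟩ | ⟨h3, _⟩
    · rw [← h3]; exact h2.2
    · rw [← h3]; exact h2.1

theorem cor_ends (e : Edg) : (cor (dsrc e) (src e) ∧ cor (dsrc e) (tgt e)) ∧
    (cor (dtgt e) (src e) ∧ cor (dtgt e) (tgt e)) := by
  obtain ⟨x, y, b⟩ := e
  cases b
  · simp only [dsrc_false, dtgt_mk, src_mk, tgt_false, cor]
    refine ⟨⟨⟨?_, ?_⟩, ?_, ?_⟩, ⟨?_, ?_⟩, ?_, ?_⟩ <;> simp
  · simp only [dsrc_true, dtgt_mk, src_mk, tgt_true, cor]
    refine ⟨⟨⟨?_, ?_⟩, ?_, ?_⟩, ⟨?_, ?_⟩, ?_, ?_⟩ <;> simp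

theorem dclu_cor {f : Vtx} (h : f ∈ D.dclu F) : ∃ v, v ∉ D.W ∧ cor f v := by
  obtain ⟨g, ⟨v, hv, hc⟩, hr⟩ := h
  unfold DReach at hr
  rcases Relation.ReflTransGen.cases_tail hr with h | ⟨f', _, hst⟩
  · refine ⟨v, ?_, by rw [h]; exact hc⟩
    intro hw
    unfold W at hw
    unfold Z at hv
    simp only [Set.mem_ofPred_eq] at hw hv
    have := D.lt v.2
    omega
  · obtain ⟨e, he, hor⟩ := hst
    have h1 : ¬ (src e ∈ D.W ∧ tgt e ∈ D.W) := fun hh => he (Or.inr hh)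
    have h2 := cor_ends e
    have h3 : cor f (src e) ∧ cor f (tgt e) := by
      rcases hor with ⟨_, h3⟩ | ⟨h3, _⟩
      · rw [← h3]; exact h2.2
      · rw [← h3]; exact h2.1
    by_cases h4 : src e ∈ D.W
    · exact ⟨tgt e, fun h5 => h1 ⟨h4, h5⟩, h3.2⟩
    · exact ⟨src e, h4, h3.1⟩

theorem cor_face {σ : St} {v : Vtx} (h : cor (face σ) v) :
    |v.1 - σ.1.1| ≤ 1 ∧ |v.2 - σ.1.2| ≤ 1 := by
  obtain ⟨⟨x, y⟩, q⟩ := σ
  obtain ⟨a, b⟩ := v
  rw [abs_le, abs_le]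
  cases q <;> simp only [face_ne, face_nw, face_sw, face_se, cor] at h ⊢ <;> omega

/-- The columns of the contact states. -/
theorem con_bd (hF : F ⊆ D.E) {σ : St} (h : σ ∈ D.con F) :
    (∃ y, D.w y ≤ σ.1.1) ∧ σ.1.1 < D.z σ.1.2 := by
  obtain ⟨h1, h2, h3, h4⟩ := h
  constructor
  · obtain ⟨v, hv, hc⟩ := dclu_cor h2
    have h5 := cor_face hc
    refine ⟨v.2, ?_⟩
    unfold W at hv
    simp only [Set.mem_ofPred_eq, not_le] at hv
    have := (abs_le.1 h5.1).2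
    omega
  · have h5 := clu_notZ hF h1
    unfold Z at h5
    simp only [Set.mem_ofPred_eq, not_le] at h5
    exact h5

end GD

theorem norm_pt_le {δ : ℝ} (hδ : 0 ≤ δ) {K : ℝ} {σ : St} (h1 : |δ * (σ.1.1 : ℝ)| ≤ K)
    (h2 : |δ * (σ.1.2 : ℝ)| ≤ K) : ‖pt δ σ‖ ≤ 2 * K + δ := by
  have h3 : |(pt δ σ).re| ≤ K + δ / 2 ∧ |(pt δ σ).im| ≤ K + δ / 2 := by
    rw [abs_le] at h1 h2
    obtain ⟨⟨x, y⟩, q⟩ := σ
    simp only at h1 h2
    rw [abs_le, abs_le]
    cases q <;> simp only [pt] <;> refine ⟨⟨?_, ?_⟩, ?_, ?_⟩ <;> nlinarith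
  refine (Complex.norm_le_abs_re_add_abs_im _).trans ?_
  linarith

theorem dist_pt_nxt {δ : ℝ} (hδ : 0 ≤ δ) (S : Set Edg) (σ : St) :
    dist (pt δ σ) (pt δ (nxt S σ)) ≤ δ := by
  have key : ∀ τ : St, τ = mv σ ∨ τ = rt σ → dist (pt δ σ) (pt δ τ) ≤ δ := by
    intro τ hτ
    rw [Complex.dist_eq]
    refine (Complex.norm_le_abs_re_add_abs_im _).trans ?_
    rw [Complex.sub_re, Complex.sub_im]
    obtain ⟨⟨x, y⟩, q⟩ := σ
    rcases hτ with rfl | rfl
    · cases q <;> simp only [mv_ne, mv_nw, mv_sw, mv_se, pt] <;> push_cast <;> ring_nf <;>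
        simp only [abs_zero, abs_neg, abs_mul, abs_of_nonneg hδ] <;> norm_num <;>
        linarith [abs_nonneg δ, abs_of_nonneg hδ]
    · cases q <;> simp only [rt_ne, rt_nw, rt_sw, rt_se, pt] <;> push_cast <;> ring_nf <;>
        simp only [abs_zero, abs_neg, abs_mul, abs_of_nonneg hδ] <;> norm_num <;>
        linarith [abs_nonneg δ, abs_of_nonneg hδ]
  apply key
  unfold nxt
  split_ifs
  · exact Or.inl rfl
  · exact Or.inr rfl

theorem mem_trace {D : GD} {δ : ℝ} {F : Finset Edg} {z : ℂ} :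
    z ∈ (D.trace δ F : Set ℂ) ↔ ∃ s, D.curve δ F s = z := Iff.rfl

/-- The trace is in a ball. -/
theorem trace_ball (h7 : S_path) {G : GD} {δ K : ℝ} (hδ : 0 < δ) (hG : Siz G δ K)
    {F : Finset Edg} (hF : F ⊆ G.E) {z : ℂ} (hz : z ∈ (G.trace δ F : Set ℂ)) :
    ‖z‖ ≤ 2 * K + 2 * δ := by
  rw [mem_trace] at hz
  obtain ⟨s, rfl⟩ := hz
  obtain ⟨k, hk, hd⟩ := pl_close (N := G.len F) (p := fun k => pt δ (G.walk F k)) hδ.le
    (fun k _ => by
      have : G.walk F (k + 1) = nxt (G.cfg F) (G.walk F k) := orb_succ _ _ _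
      rw [this]
      exact dist_pt_nxt hδ.le _ _) s
  have h1 : G.walk F k ∈ G.con F := ((h7 G F hF).2 _).2 ⟨k, hk, rfl⟩
  obtain ⟨⟨y, h2⟩, h3⟩ := GD.con_bd hF h1
  obtain ⟨_, _, h4, h5⟩ := h1
  have a1 : |δ * ((G.walk F k).1.1 : ℝ)| ≤ K := by
    rw [abs_le]
    have b1 := hG.w y
    have b2 := hG.z (G.walk F k).1.2
    have b3 : (G.w y : ℝ) ≤ (G.walk F k).1.1 := by exact_mod_cast h2
    have b4 : ((G.walk F k).1.1 : ℝ) ≤ G.z (G.walk F k).1.2 := by exact_mod_cast h3.le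
    constructor <;> nlinarith
  have a2 : |δ * ((G.walk F k).1.2 : ℝ)| ≤ K := by
    rw [abs_le]
    have b1 := hG.lo
    have b2 := hG.hi
    have b3 : (G.lo : ℝ) ≤ (G.walk F k).1.2 := by exact_mod_cast h4
    have b4 : ((G.walk F k).1.2 : ℝ) ≤ G.hi := by exact_mod_cast h5
    constructor <;> nlinarith
  have a3 := norm_pt_le hδ.le a1 a2
  have a4 : ‖G.curve δ F s‖ ≤ ‖pt δ (G.walk F k)‖ + dist (G.curve δ F s) (pt δ (G.walk F k)) := by
    rw [dist_eq_norm]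
    have := norm_add_le (pt δ (G.walk F k)) (G.curve δ F s - pt δ (G.walk F k))
    rwa [add_sub_cancel] at this
  have a5 : dist (G.curve δ F s) (pt δ (G.walk F k)) ≤ δ := hd
  linarith

/-! ### Scaling -/

theorem pt_scale (c δ : ℝ) (σ : St) : pt (c * δ) σ = (c : ℂ) * pt δ σ := by
  obtain ⟨⟨x, y⟩, q⟩ := σ
  cases q <;> unfold pt <;> apply Complex.ext <;> simp <;> ring

theorem curve_scale (D : GD) (c δ : ℝ) (F : Finset Edg) (s : unitInterval) :
    D.curve (c * δ) F s = (c : ℂ) * D.curve δ F s := by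
  show pt (c * δ) (D.walk F 0) + ∑ k ∈ Finset.range (D.len F),
    ((clamp (s * D.len F - k) : ℝ) : ℂ) * (pt (c * δ) (D.walk F (k + 1)) -
    pt (c * δ) (D.walk F k)) = (c : ℂ) * (pt δ (D.walk F 0) +
    ∑ k ∈ Finset.range (D.len F), ((clamp (s * D.len F - k) : ℝ) : ℂ) *
    (pt δ (D.walk F (k + 1)) - pt δ (D.walk F k)))
  rw [mul_add, Finset.mul_sum, pt_scale]
  congr 1
  apply Finset.sum_congr rfl
  intro k _
  rw [pt_scale, pt_scale]
  ring

/-- Scaling of compact sets. -/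
noncomputable def dil (c : ℝ) (A : NC) : NC :=
  NonemptyCompacts.map (fun z => (c : ℂ) * z) (by fun_prop) A

theorem mem_dil {c : ℝ} {A : NC} {z : ℂ} : z ∈ (dil c A : Set ℂ) ↔ ∃ w ∈ A, (c : ℂ) * w = z := by
  unfold dil
  rw [NonemptyCompacts.coe_map]
  rfl

theorem trace_scale (D : GD) (c δ : ℝ) (F : Finset Edg) :
    D.trace (c * δ) F = dil c (D.trace δ F) := by
  apply NonemptyCompacts.ext
  ext z
  rw [mem_dil, mem_trace]
  constructor
  · rintro ⟨s, rfl⟩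
    exact ⟨_, mem_trace.2 ⟨s, rfl⟩, (curve_scale D c δ F s).symm⟩
  · rintro ⟨w, ⟨s, rfl⟩, rfl⟩
    exact ⟨s, curve_scale D c δ F s⟩

theorem nc_dist_le {A B : NC} {r : ℝ} (hr : 0 ≤ r) (h1 : ∀ x ∈ A, ∃ y ∈ B, dist x y ≤ r)
    (h2 : ∀ y ∈ B, ∃ x ∈ A, dist y x ≤ r) : dist A B ≤ r := by
  rw [Metric.NonemptyCompacts.dist_eq]
  exact Metric.hausdorffDist_le_of_mem_dist hr h1 h2

theorem dil_dist (c : ℝ) (A B : NC) : dist (dil c A) (dil c B) ≤ |c| * dist A B := by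
  have key : ∀ A B : NC, ∀ x ∈ dil c A, ∃ y ∈ dil c B, dist x y ≤ |c| * dist A B := by
    intro A B x hx
    rw [← SetLike.mem_coe, mem_dil] at hx
    obtain ⟨w, hw, rfl⟩ := hx
    obtain ⟨v, hv, hv'⟩ := B.isCompact.exists_infDist_eq_dist B.nonempty w
    refine ⟨(c : ℂ) * v, SetLike.mem_coe.1 (mem_dil.2 ⟨v, hv, rfl⟩), ?_⟩
    rw [Complex.dist_eq, ← mul_sub, norm_mul, Complex.norm_real, Real.norm_eq_abs,
      ← Complex.dist_eq]
    apply mul_le_mul_of_nonneg_left _ (abs_nonneg c)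
    rw [← hv', Metric.NonemptyCompacts.dist_eq]
    exact Metric.infDist_le_hausdorffDist_of_mem hw
      (Metric.hausdorffEDist_ne_top_of_nonempty_of_bounded A.nonempty B.nonempty
        A.isCompact.isBounded B.isCompact.isBounded)
  apply nc_dist_le (by positivity) (key A B)
  intro y hy
  obtain ⟨x, hx, hd⟩ := key B A y hy
  exact ⟨x, hx, by rwa [dist_comm B A] at hd⟩

theorem dil_cont (c : ℝ) : Continuous (dil c) := by
  have : LipschitzWith |c|.toNNReal (dil c) := by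
    apply LipschitzWith.of_dist_le_mul
    intro A B
    rw [Real.coe_toNNReal _ (abs_nonneg c)]
    exact dil_dist c A B
  exact this.continuous

theorem law_scale (D : GD) (π : Par) (c δ : ℝ) :
    D.law π (c * δ) = (D.law π δ).map (dil_cont c).measurable.aemeasurable := by
  apply ProbabilityMeasure.toMeasure_injective
  rw [ProbabilityMeasure.toMeasure_map]
  ext G hG
  unfold GD.law
  rw [Measure.map_apply (dil_cont c).measurable hG, D.lawN_apply π _ hG,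
    D.lawN_apply π _ ((dil_cont c).measurable hG)]
  simp only [trace_scale, Set.mem_preimage]

/-- Change of the mesh. -/
theorem mesh_lp (h7 : S_path) {G : GD} {π : Par} {δ δ' K : ℝ} (hδ' : 0 < δ') (hG : Siz G δ' K) :
    dist (fl G π δ) (fl G π δ') ≤ |δ - δ'| / δ' * (2 * K + 2 * δ') := by
  have hK := hG.pos hδ'
  apply lp_same (D := G) (π := π) (by positivity)
  intro F hF
  have e1 : G.trace δ F = dil (δ / δ') (G.trace δ' F) := by
    rw [← trace_scale, div_mul_cancel₀ _ hδ'.ne']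
  have key : ∀ w ∈ G.trace δ' F, dist (((δ / δ' : ℝ) : ℂ) * w) w ≤
      |δ - δ'| / δ' * (2 * K + 2 * δ') := by
    intro w hw
    have h1 := trace_ball h7 hδ' hG hF hw
    have e2 : ((δ / δ' : ℝ) : ℂ) * w - w = (((δ - δ') / δ' : ℝ) : ℂ) * w := by
      have : (δ - δ') / δ' = δ / δ' - 1 := by field_simp
      rw [this]
      push_cast
      ring
    rw [Complex.dist_eq, e2, norm_mul, Complex.norm_real, Real.norm_eq_abs, abs_div,
      abs_of_pos hδ']
    exact mul_le_mul_of_nonneg_left h1 (by positivity)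
  rw [e1]
  apply nc_dist_le (by positivity)
  · intro x hx
    rw [← SetLike.mem_coe, mem_dil] at hx
    obtain ⟨w, hw, rfl⟩ := hx
    exact ⟨w, hw, key w hw⟩
  · intro w hw
    refine ⟨((δ / δ' : ℝ) : ℂ) * w, SetLike.mem_coe.1 (mem_dil.2 ⟨w, hw, rfl⟩), ?_⟩
    rw [dist_comm]
    exact key w hw

end Pool.Agent.H950.FK
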